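import Pool.Agent.E8helper42.GF.SLn

/-!
# Monodromy; special linear groups
-/

set_option autoImplicit false
set_option linter.unusedSectionVars false

namespace Pool.Agent.E8helper42.GF

open Matrix
open Pool.Agent.Y890.MV
open Pool.Agent.Y119.PLM (MT Ix vt GalT pe UGen IsRelT IsMon mon_mem)

section mono

variable {X κ : Type} [Fintype X] {n : κ → ℕ}

/-- the pair of families -/
def pr2 (B P : (X → ℂ) → MT n) : (X → ℂ) → MT (Sum.elim n n) := fun x j =>
  match j with
  | Sum.inl j => B x j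
  | Sum.inr j => P x j

/-- the pair `(1, g)` -/
def one2 (g : MT n) : MT (Sum.elim n n) := fun j =>
  match j with
  | Sum.inl _ => 1
  | Sum.inr j => g j

/-- the indices -/
def ix2 : Ix n ⊕ Ix n → Ix (Sum.elim n n)
  | Sum.inl i => ⟨Sum.inl i.1, i.2⟩
  | Sum.inr i => ⟨Sum.inr i.1, i.2⟩

lemma v2_eq (R : MvPolynomial (Ix n ⊕ Ix n) (MvPolynomial X ℂ)) (x : X → ℂ) (C : MT (Sum.elim n n)) :
    vt (MvPolynomial.rename ix2 R) x C = v2 R x (fun j => C (Sum.inl j)) (fun j => C (Sum.inr j)) := by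
  unfold vt v2
  rw [MvPolynomial.eval₂_rename]
  congr 1
  funext o
  rcases o with i | i
  · rfl
  · rfl

/-- relations are invariant under the Zariski closure of the monodromy -/
theorem inv_of_dense {U : Set (X → ℂ)} {P B : (X → ℂ) → MT n} {G : Subgroup (MT n)ˣ} (hU : IsPreconnected U)
    (hP : ∀ j a b, AnalyticOnNhd ℂ (fun x => P x j a b) U) (hB : ∀ j a b, AnalyticOnNhd ℂ (fun x => B x j a b) U)
    (hden : ∀ p : MvPolynomial (Ix n) ℂ, (∀ g : MT n, IsMon U (pr2 B P) (one2 g) → pe p g = 0) →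
      ∀ g ∈ G, pe p (g : MT n) = 0) :
    ∀ g ∈ G, ∀ R : MvPolynomial (Ix n ⊕ Ix n) (MvPolynomial X ℂ), (∀ x ∈ U, v2 R x (B x) (P x) = 0) →
      ∀ x ∈ U, v2 R x (B x) (P x * (g : MT n)) = 0 := by
  intro g hg R hR x hx
  have han : ∀ j a b, AnalyticOnNhd ℂ (fun x => pr2 B P x j a b) U := by
    rintro (j | j) a b
    · exact hB j a b
    · exact hP j a b
  obtain ⟨p, hp⟩ : ∃ p : MvPolynomial (Ix n) ℂ, ∀ g, pe p g = v2 R x (B x) (P x * g) := by
    refine ⟨MvPolynomial.eval₂ (MvPolynomial.C.comp (MvPolynomial.eval x))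
      (Sum.elim (fun i : Ix n => MvPolynomial.C (B x i.1 i.2.1 i.2.2))
        (fun i : Ix n => ∑ k, MvPolynomial.C (P x i.1 i.2.1 k) * MvPolynomial.X ⟨i.1, k, i.2.2⟩)) R, fun g => ?_⟩
    unfold pe v2
    rw [MvPolynomial.hom_eval₂]
    congr 1
    · ext <;> simp
    · funext o
      rcases o with i | i
      · simp
      · simp only [Sum.elim_inr]
        rw [map_sum, Pi.mul_apply, Matrix.mul_apply]
        refine Finset.sum_congr rfl fun k _ => ?_
        rw [map_mul, MvPolynomial.eval_C, MvPolynomial.eval_X]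
  rw [← hp]
  refine hden p (fun h hh => ?_) g hg
  rw [hp]
  have h1 := mon_mem hU han hh (MvPolynomial.rename ix2 R) (fun y hy => by
    rw [v2_eq]
    exact hR y hy) x hx
  rw [v2_eq] at h1
  have h2 : (fun j => (pr2 B P x * one2 h) (Sum.inl j)) = B x := by
    funext j
    change B x j * 1 = B x j
    rw [mul_one]
  rw [h2] at h1
  exact h1

/-- relations are invariant under the Zariski closure of the monodromy, one family -/
theorem gal_of_dense {U : Set (X → ℂ)} {P : (X → ℂ) → MT n} {G : Set (MT n)} (hU : IsPreconnected U)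
    (hP : ∀ j a b, AnalyticOnNhd ℂ (fun x => P x j a b) U)
    (hden : ∀ p : MvPolynomial (Ix n) ℂ, (∀ g : MT n, IsMon U P g → pe p g = 0) → ∀ g ∈ G, pe p g = 0) :
    ∀ g ∈ G, g ∈ GalT U P := by
  intro g hg R hR x hx
  obtain ⟨p, hp⟩ : ∃ p : MvPolynomial (Ix n) ℂ, ∀ g, pe p g = vt R x (P x * g) := by
    refine ⟨MvPolynomial.eval₂ (MvPolynomial.C.comp (MvPolynomial.eval x))
      (fun i : Ix n => ∑ k, MvPolynomial.C (P x i.1 i.2.1 k) * MvPolynomial.X ⟨i.1, k, i.2.2⟩) R, fun g => ?_⟩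
    unfold pe vt
    rw [MvPolynomial.hom_eval₂]
    congr 1
    · ext <;> simp
    · funext i
      rw [map_sum, Pi.mul_apply, Matrix.mul_apply]
      refine Finset.sum_congr rfl fun k _ => ?_
      rw [map_mul, MvPolynomial.eval_C, MvPolynomial.eval_X]
  rw [← hp]
  refine hden p (fun h hh => ?_) g hg
  rw [hp]
  exact mon_mem hU hP hh R hR x hx

end mono

section sl

variable {X κ : Type} [Fintype X] [Fintype κ] [DecidableEq κ] {n : κ → ℕ}

/-- `diag (det A, 1, …, 1)` -/
noncomputable def dg (A : MT n) : MT n := fun j => Matrix.diagonal fun a => if (a : ℕ) = 0 then (A j).det else 1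

lemma dg_det (A : MT n) (j : κ) : (dg A j).det = (A j).det := by
  unfold dg
  rw [det_diagonal]
  rcases Nat.eq_zero_or_pos (n j) with h | h
  · have : IsEmpty (Fin (n j)) := by rw [h]; infer_instance
    rw [det_isEmpty, Finset.prod_of_isEmpty]
  · rw [Finset.prod_eq_single (⟨0, h⟩ : Fin (n j))]
    · simp
    · intro b _ hb
      rw [if_neg]
      intro h0
      exact hb (Fin.ext h0)
    · intro h0
      exact absurd (Finset.mem_univ _) h0

lemma dg_mul (A g : MT n) (hg : ∀ j, (g j).det = 1) : dg (A * g) = dg A := by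
  funext j
  unfold dg
  rw [Pi.mul_apply, det_mul, hg j, mul_one]

/-- the entries of `dg A` as polynomials -/
noncomputable def dgp (i : Ix n) : MvPolynomial (Ix n) (MvPolynomial X ℂ) :=
  Matrix.diagonal (fun a : Fin (n i.1) => if (a : ℕ) = 0 then (gm (n := n) (MvPolynomial X ℂ) i.1).det else 1) i.2.1 i.2.2

lemma vt_dgp (x : X → ℂ) (A : MT n) (i : Ix n) : vt (dgp i) x A = dg A i.1 i.2.1 i.2.2 := by
  have h1 : vt (gm (n := n) (MvPolynomial X ℂ) i.1).det x A = (A i.1).det := by
    unfold vt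
    rw [← MvPolynomial.coe_eval₂Hom, RingHom.map_det]
    congr 1
    exact gm_map x A i.1
  unfold dgp dg
  by_cases h : i.2.1 = i.2.2
  · rw [h, Matrix.diagonal_apply_eq, Matrix.diagonal_apply_eq]
    split_ifs with h2
    · exact h1
    · unfold vt
      rw [MvPolynomial.eval₂_one]
  · rw [Matrix.diagonal_apply_ne _ h, Matrix.diagonal_apply_ne _ h]
    unfold vt
    rw [MvPolynomial.eval₂_zero]

/-- substitution -/
noncomputable def sbd (R : MvPolynomial (Ix n ⊕ Ix n) (MvPolynomial X ℂ)) : MvPolynomial (Ix n) (MvPolynomial X ℂ) :=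
  MvPolynomial.bind₁ (Sum.elim dgp MvPolynomial.X) R

lemma vt_sbd (R : MvPolynomial (Ix n ⊕ Ix n) (MvPolynomial X ℂ)) (x : X → ℂ) (A : MT n) :
    vt (sbd R) x A = v2 R x (dg A) A := by
  unfold v2 sbd
  have h1 : (MvPolynomial.eval₂Hom (MvPolynomial.eval x) (fun i : Ix n => A i.1 i.2.1 i.2.2)).comp
      ((MvPolynomial.bind₁ (Sum.elim dgp MvPolynomial.X) :
          MvPolynomial (Ix n ⊕ Ix n) (MvPolynomial X ℂ) →ₐ[MvPolynomial X ℂ] MvPolynomial (Ix n) (MvPolynomial X ℂ)) :
            MvPolynomial (Ix n ⊕ Ix n) (MvPolynomial X ℂ) →+* MvPolynomial (Ix n) (MvPolynomial X ℂ)) =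
      MvPolynomial.eval₂Hom (MvPolynomial.eval x)
        (Sum.elim (fun i : Ix n => dg A i.1 i.2.1 i.2.2) fun i : Ix n => A i.1 i.2.1 i.2.2) := by
    apply MvPolynomial.ringHom_ext
    · intro a
      simp
    · rintro (i | i)
      · rw [RingHom.comp_apply, MvPolynomial.eval₂Hom_X', RingHom.coe_coe, MvPolynomial.bind₁_X_right, Sum.elim_inl,
          Sum.elim_inl]
        exact vt_dgp x A i
      · rw [RingHom.comp_apply, MvPolynomial.eval₂Hom_X', RingHom.coe_coe, MvPolynomial.bind₁_X_right, Sum.elim_inr,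
          Sum.elim_inr, MvPolynomial.eval₂Hom_X']
  exact RingHom.congr_fun h1 R

lemma algF_const (U : Set (X → ℂ)) (c : ℂ) : AlgF U fun _ => c := by
  refine ⟨Polynomial.X - Polynomial.C (MvPolynomial.C c), Polynomial.X_sub_C_ne_zero _, fun x _ => ?_⟩
  rw [Polynomial.map_sub, Polynomial.map_X, Polynomial.map_C, Polynomial.eval_sub, Polynomial.eval_X,
    Polynomial.eval_C, MvPolynomial.eval_C, sub_self]

/-- families of special linear type -/
theorem hyp_SL {U : Set (X → ℂ)} {P : (X → ℂ) → MT n} (hU : IsPreconnected U) (hUo : IsOpen U) (hne : U.Nonempty)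
    (hP : ∀ j a b, AnalyticOnNhd ℂ (fun x => P x j a b) U) (halg : ∀ j, AlgF U (fun x => (P x j).det))
    (hdet : ∀ j, ∃ x ∈ U, (P x j).det ≠ 0) (hgal : ∀ g : MT n, (∀ j, (g j).det = 1) → g ∈ GalT U P) :
    Hyp U P (fun x => dg (P x)) (SLT n) := by
  have hda : ∀ j, AnalyticOnNhd ℂ (fun x => (P x j).det) U := by
    intro j
    have h1 : (fun x => (P x j).det) = fun x => ∑ σ : Equiv.Perm (Fin (n j)),
        ((Equiv.Perm.sign σ : ℤ) : ℂ) * ∏ i, P x j (σ i) i := by
      funext x
      rw [det_apply']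
    rw [h1]
    refine Finset.analyticOnNhd_fun_sum _ fun σ _ => analyticOnNhd_const.mul ?_
    exact Finset.analyticOnNhd_fun_prod _ fun i _ => hP j _ _
  refine ⟨hU, hUo, hne, hP, ?_, ?_, ?_, ?_, ugen_SLT, ?_⟩
  · intro j a b
    unfold dg
    by_cases h : a = b
    · subst h
      simp only [Matrix.diagonal_apply_eq]
      split_ifs
      · exact hda j
      · exact analyticOnNhd_const
    · simp only [Matrix.diagonal_apply_ne _ h]
      exact analyticOnNhd_const
  · intro j a b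
    unfold dg
    by_cases h : a = b
    · subst h
      simp only [Matrix.diagonal_apply_eq]
      split_ifs
      · exact halg j
      · exact algF_const U 1
    · simp only [Matrix.diagonal_apply_ne _ h]
      exact algF_const U 0
  · intro j
    obtain ⟨x, hx, hxd⟩ := hdet j
    exact ⟨x, hx, by rwa [dg_det]⟩
  · intro x hx hd
    have hd' : ∀ j, (dg (P x) j).det ≠ 0 := hd
    have h1 : ∀ j, ((dg (P x) j)⁻¹ * P x j).det = 1 := by
      intro j
      rw [det_mul, det_nonsing_inv, Ring.inverse_eq_inv', dg_det]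
      have := hd' j
      rw [dg_det] at this
      exact inv_mul_cancel₀ this
    refine ⟨toU (fun j => (dg (P x) j)⁻¹ * P x j) h1, toU_mem _ _, ?_⟩
    funext j
    change P x j = dg (P x) j * ((dg (P x) j)⁻¹ * P x j)
    rw [← Matrix.mul_assoc, mul_nonsing_inv _ (Ne.isUnit (hd' j)), one_mul]
  · intro g hg R hR x hx
    have hg' : ∀ j, ((g : MT n) j).det = 1 := hg
    have h1 := hgal (g : MT n) hg' (sbd R) (fun y hy => by
      rw [vt_sbd]
      exact hR y hy) x hx
    rw [vt_sbd, dg_mul _ _ hg'] at h1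
    exact h1

lemma SLT_set : {g : MT n | ∃ u ∈ SLT n, (u : MT n) = g} = {g | ∀ j, (g j).det = 1} := by
  ext g
  constructor
  · rintro ⟨u, hu, rfl⟩
    exact hu
  · intro hg
    exact ⟨toU g hg, toU_mem _ _, rfl⟩

variable [DecidableEq X] [Nonempty X]

/-- special linear type, few exceptional points -/
theorem few_SL {U : Set (X → ℂ)} {P : (X → ℂ) → MT n} (hU : IsPreconnected U) (hUo : IsOpen U) (hne : U.Nonempty)
    (hP : ∀ j a b, AnalyticOnNhd ℂ (fun x => P x j a b) U) (halg : ∀ j, AlgF U (fun x => (P x j).det))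
    (hdet : ∀ j, ∃ x ∈ U, (P x j).det ≠ 0)
    (hden : ∀ p : MvPolynomial (Ix n) ℂ, (∀ g : MT n, IsMon U P g → pe p g = 0) →
      ∀ g : MT n, (∀ j, (g j).det = 1) → pe p g = 0) :
    FewG U P {g | ∀ j, (g j).det = 1} := by
  rw [← SLT_set]
  exact few (hyp_SL hU hUo hne hP halg hdet fun g hg => gal_of_dense (G := {g | ∀ j, (g j).det = 1}) hU hP hden g hg)

end sl

end Pool.Agent.E8helper42.GF
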