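import Pool.Agent.E8helper42.GF.Sys

/-!
# The exceptional points lie in exceptional sets of systems
-/

set_option autoImplicit false
set_option linter.unusedSectionVars false

namespace Pool.Agent.E8helper42.GF

open NumberField Filter
open Pool.Agent.Y890.MV (RegularM InnerM innerM_sub)
open Pool.Agent.Y890.SP (Qbar)
open Pool.Agent.Y119.PLM (MT Ix vt GalT pe UGen sum_expM tl pe_tl IsRelT)
open Pool.Agent.Y985.OR (ExcB)

/-- combinatorics -/
lemma comb {Γ : Type} [Group Γ] [Fintype Γ] [DecidableEq Γ] (Z : Finset Γ) (Z' : Set Γ) (h1 : (1 : Γ) ∈ Z)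
    (h2 : ∀ g ∈ Z', g ∈ Z) (h : ∀ ε : Γ → Γ, (∀ g, g⁻¹ * ε g ∈ Z) → ∃ g, ε g ∈ Z') : (1 : Γ) ∈ Z' := by
  classical
  have h3 : ∃ g : Γ, ∀ x, g⁻¹ * x ∈ Z → x ∈ Z' := by
    by_contra hcon
    push Not at hcon
    choose ε hε hε' using hcon
    obtain ⟨g, hg⟩ := h ε hε
    exact hε' g hg
  obtain ⟨g, hg⟩ := h3
  have h4 : Z.image (fun y => g * y) ⊆ Z := by
    intro x hx
    obtain ⟨y, hy, rfl⟩ := Finset.mem_image.1 hx
    exact h2 _ (hg _ (by rwa [inv_mul_cancel_left]))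
  have h5 : Z.image (fun y => g * y) = Z :=
    Finset.eq_of_subset_of_card_le h4 (by rw [Finset.card_image_of_injective _ (mul_right_injective g)])
  have h6 : (1 : Γ) ∈ Z.image (fun y => g * y) := by rw [h5]; exact h1
  obtain ⟨y, hy, hy'⟩ := Finset.mem_image.1 h6
  rw [← hy']
  exact hg _ (by rwa [inv_mul_cancel_left])

/-- Vandermonde -/
lemma vander {Γ : Type} [Fintype Γ] (f v : Γ → ℂ) (hf : Function.Injective f)
    (h : ∀ j : Fin (Fintype.card Γ), ∑ g, f g ^ (j : ℕ) * v g = 0) : ∀ g, v g = 0 := by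
  classical
  intro g
  have h1 := Matrix.eq_zero_of_forall_pow_sum_mul_pow_eq_zero (f := f ∘ (Fintype.equivFin Γ).symm)
    (v := v ∘ (Fintype.equivFin Γ).symm) (hf.comp (Fintype.equivFin Γ).symm.injective) (fun j => by
      rw [← h j, ← (Fintype.equivFin Γ).symm.sum_comp]
      refine Finset.sum_congr rfl fun i _ => ?_
      simp only [Function.comp_apply]
      ring)
  have h2 := congrFun h1 (Fintype.equivFin Γ g)
  simpa using h2

/-- the exceptional points: `s` in `K ^ X`, of height at most `T`, in the compact set `InnerM U k`, such that some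
polynomial `F` of partial degrees at most `k`, whose coefficients are combinations `∑ ξ i * c i` with integers `c i` of
`K` all of whose conjugates are at most `T ^ k`, vanishes at the values `P j (s)` but not at all tuples
`P j (s) * g j` with `g` in `G` -/
def ExcG {X κ : Type} [Fintype X] {n : κ → ℕ} (U : Set (X → ℂ)) (P : (X → ℂ) → MT n) (G : Set (MT n))
    (K : Type) [Field K] [NumberField K] (io : K →+* ℂ) (k : ℕ) (ξ : Fin k → ℂ) (T : ℝ) : Set (X → K) :=
  {s | (∀ i, Y120.HtLe K T (s i)) ∧ (fun i => io (s i)) ∈ InnerM U k ∧ ∃ F : MvPolynomial (Ix n) ℂ,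
    (∀ y, F.degreeOf y ≤ k) ∧
    (∀ m, ∃ c : Fin k → 𝓞 K, (∀ i (φ : K →+* ℂ), ‖φ (c i : K)‖ ≤ T ^ (k : ℝ)) ∧
      F.coeff m = ∑ i, ξ i * io (c i : K)) ∧
    pe F (P fun i => io (s i)) = 0 ∧ ∃ g ∈ G, pe F (P (fun i => io (s i)) * g) ≠ 0}

variable {X κ : Type} [Fintype X] [Fintype κ] [DecidableEq κ] {n : κ → ℕ}

theorem exc_sub {U : Set (X → ℂ)} {P B Y : (X → ℂ) → MT n} {N : MvPolynomial X ℂ} {G : Subgroup (MT n)ˣ}
    (hF : GFam U P B Y N G) (S : GD U (en B)) (K : Type) [Field K] [NumberField K] (io : K →+* ℂ) (k : ℕ)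
    (ξ : Fin k → ℂ) (T : ℝ) (hk : 0 < k) (hT : 1 ≤ T) :
    ExcG U P {g | ∃ u ∈ G, (u : MT n) = g} K io k ξ T ⊆
      {s | MvPolynomial.eval (fun i => io (s i)) (S.D * N) = 0} ∪
      ⋃ Z : Finset S.Γ, ExcB U (fe Y) (InnerM U k) K io (Bs S N k ξ Z) ((k : ℝ) * (Fintype.card S.Γ : ℝ)) T := by
  classical
  rintro s ⟨hs, hin, F, hdeg, hcoef, hzero, _, ⟨u, huG, rfl⟩, hne⟩
  choose c hc hc' using hcoef
  set x0 : X → ℂ := fun i => io (s i) with hx0
  have hxU : x0 ∈ U := innerM_sub U hk hin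
  by_cases hDN : MvPolynomial.eval x0 (S.D * N) = 0
  · exact Or.inl hDN
  right
  have hD0 : MvPolynomial.eval x0 S.D ≠ 0 := by
    rw [map_mul] at hDN
    exact left_ne_zero_of_mul hDN
  have hN0 : MvPolynomial.eval x0 N ≠ 0 := by
    rw [map_mul] at hDN
    exact right_ne_zero_of_mul hDN
  obtain ⟨hd0, e, he1, he2, he3⟩ := S.ev x0 hxU hD0
  have hq : MvPolynomial.eval x0 (S.d₀ * N) ≠ 0 := by
    rw [map_mul]
    exact mul_ne_zero hd0 hN0
  set q : ℂ := MvPolynomial.eval x0 (S.d₀ * N) with hqdef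
  -- the matrices
  set M : S.Γ → MT n := fun g => q⁻¹ • bm S (pl S e g) with hM
  have hpl1 : pl S e 1 = e := by
    unfold pl
    rw [map_one]
    exact RingHom.ext fun z => rfl
  have hMP : M 1 * Y x0 = P x0 := by
    have h1 : bm S e = MvPolynomial.eval x0 S.d₀ • B x0 := by
      funext j
      ext a b
      unfold bm
      rw [Matrix.of_apply, he2, Pi.smul_apply, Matrix.smul_apply, smul_eq_mul]
      rfl
    rw [hM]
    simp only
    rw [hpl1, h1, smul_smul, smul_mul_assoc, ← hF.BY x0 hxU, smul_smul, hqdef, map_mul]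
    have h2 : ((MvPolynomial.eval x0 S.d₀ * MvPolynomial.eval x0 N)⁻¹ * MvPolynomial.eval x0 S.d₀) *
        MvPolynomial.eval x0 N = 1 := by
      field_simp
    rw [h2, one_smul]
  -- the coefficients
  set co : (Ix n → Fin (k + 1)) × Fin k → 𝓞 K :=
    fun q => c (Finsupp.equivFunOnFinite.symm fun y => (q.1 y : ℕ)) q.2 with hco
  have hcq : ∀ e : Ix n → Fin (k + 1), F.coeff (Finsupp.equivFunOnFinite.symm fun y => (e y : ℕ)) =
      ∑ i, ξ i * io ((co (e, i) : 𝓞 K) : K) := fun e => hc' _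
  have hprodK : ∀ p : S.Γ → (Ix n → Fin (k + 1)) × Fin k,
      ((∏ g, co (p g) : 𝓞 K) : K) = ∏ g, ((co (p g) : 𝓞 K) : K) := by
    intro p
    exact map_prod (algebraMap (𝓞 K) K) _ _
  set Z : Finset S.Γ := Finset.univ.filter fun g => pe F (M g * Y x0) = 0 with hZ
  have hSV : ∀ (A : MT n) (ρ : (S.Γ → S.Γ) × Fin (Fintype.card S.Γ)),
      SV S N k io ξ (fun l => ((co l : 𝓞 K) : K)) x0 A ρ = ∑ h, e (S.σ h S.θ) ^ (ρ.2 : ℕ) *
        ∏ g, (q ^ (k * Fintype.card (Ix n)) * pe F (M (h * ρ.1 g) * A)) := by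
    intro A ρ
    exact SV_eq S N k io ξ hdeg _ hcq he1 hq A ρ
  have hevS : ∀ (x : X → ℂ) (T : MvPolynomial (Ix n) (MvPolynomial X ℂ)),
      MvPolynomial.eval (fun o => fe Y o x) ((MvPolynomial.sumAlgEquiv ℂ (Ix n) X).symm T) = vt T x (Y x) := by
    intro x T
    have h1 : (fun o => fe Y o x) = Sum.elim (fun i : Ix n => Y x i.1 i.2.1 i.2.2) x := by
      funext o
      rcases o with i | a
      · rfl
      · rfl
    rw [h1, eval_symm]
    rfl
  refine Set.mem_iUnion.2 ⟨Z, hs, hin, fun p => ∏ g, co (p g), ?_, ?_, ?_⟩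
  · intro p φ
    rw [hprodK, map_prod, norm_prod]
    have h1 : ∏ g, ‖φ ((co (p g) : 𝓞 K) : K)‖ ≤ ∏ _g : S.Γ, T ^ (k : ℝ) :=
      Finset.prod_le_prod (fun g _ => norm_nonneg _) fun g _ => hc _ _ φ
    refine h1.trans ?_
    rw [Finset.prod_const, Finset.card_univ, Real.rpow_mul (by linarith), Real.rpow_natCast (T ^ (k : ℝ))]
  · intro ρ
    by_cases hρ : ∀ g, g⁻¹ * ρ.1 g ∈ Z
    · have h1 : ∑ p : S.Γ → (Ix n → Fin (k + 1)) × Fin k, io ((∏ g, co (p g) : 𝓞 K) : K) *
          MvPolynomial.eval (fun o => fe Y o x0) (Bs S N k ξ Z ρ p) =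
          SV S N k io ξ (fun l => ((co l : 𝓞 K) : K)) x0 (Y x0) ρ := by
        unfold SV
        refine Finset.sum_congr rfl fun p _ => ?_
        rw [hprodK, Bs_pos S N k ξ Z ρ hρ, MvPolynomial.smul_eval, hevS]
      rw [h1, hSV]
      refine Finset.sum_eq_zero fun h _ => ?_
      have h2 := hρ h⁻¹
      rw [inv_inv, hZ, Finset.mem_filter] at h2
      rw [Finset.prod_eq_zero (Finset.mem_univ h⁻¹) (by rw [h2.2, mul_zero]), mul_zero]
    · refine Finset.sum_eq_zero fun p _ => ?_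
      rw [Bs_neg S N k ξ Z ρ hρ, map_zero, mul_zero]
  · rintro ⟨H, hH1, hH2⟩
    -- the functional relations
    have hfun : ∀ ρ : (S.Γ → S.Γ) × Fin (Fintype.card S.Γ), (∀ g, g⁻¹ * ρ.1 g ∈ Z) → ∀ h ∈ G,
        SV S N k io ξ (fun l => ((co l : 𝓞 K) : K)) x0 (Y x0 * (h : MT n)) ρ = 0 := by
      intro ρ hρ h hh
      set R : MvPolynomial (Ix n) (MvPolynomial X ℂ) :=
        ∑ p : S.Γ → (Ix n → Fin (k + 1)) × Fin k,
          MvPolynomial.C (MvPolynomial.map (algebraMap Qbar ℂ) (H p)) *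
            (MvPolynomial.C (MvPolynomial.C (∏ g, ξ (p g).2)) * TT S N k ρ.2 ρ.1 fun g => (p g).1) with hR
      have hRe : ∀ x A, vt R x A = ∑ p : S.Γ → (Ix n → Fin (k + 1)) × Fin k, MvPolynomial.aeval x (H p) *
          ((∏ g, ξ (p g).2) * vt (TT S N k ρ.2 ρ.1 fun g => (p g).1) x A) := by
        intro x A
        unfold vt
        rw [hR, MvPolynomial.eval₂_sum]
        refine Finset.sum_congr rfl fun p _ => ?_
        rw [MvPolynomial.eval₂_mul, MvPolynomial.eval₂_mul, MvPolynomial.eval₂_C, MvPolynomial.eval₂_C,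
          MvPolynomial.eval_C, MvPolynomial.eval_map, MvPolynomial.aeval_def]
      have hRrel : IsRelT U Y R := by
        intro x hx
        rw [hRe, ← hH2 x hx ρ]
        refine Finset.sum_congr rfl fun p _ => ?_
        rw [Bs_pos S N k ξ Z ρ hρ, MvPolynomial.smul_eval, hevS]
      have h1 := hF.gal h hh R hRrel x0 hxU
      rw [hRe] at h1
      rw [← h1]
      unfold SV
      refine Finset.sum_congr rfl fun p _ => ?_
      rw [hH1 p, hprodK]
    have hprod : ∀ ε : S.Γ → S.Γ, (∀ g, g⁻¹ * ε g ∈ Z) → ∀ h ∈ G, ∏ g, pe F (M (ε g) * (Y x0 * (h : MT n))) = 0 := by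
      intro ε hε h hh
      have h1 := vander (fun g => e (S.σ g S.θ))
        (fun h' => ∏ g, (q ^ (k * Fintype.card (Ix n)) * pe F (M (h' * ε g) * (Y x0 * (h : MT n))))) he3 (fun j => by
          rw [← hfun (ε, j) hε h hh, hSV])
      have h2 := h1 1
      simp only [one_mul] at h2
      rw [Finset.prod_mul_distrib] at h2
      rcases mul_eq_zero.1 h2 with h3 | h3
      · rw [Finset.prod_const] at h3
        exact absurd h3 (pow_ne_zero _ (pow_ne_zero _ hq))
      · exact h3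
    have hone : (1 : S.Γ) ∈ {g : S.Γ | ∀ h ∈ G, pe F (M g * (Y x0 * (h : MT n))) = 0} := by
      refine comb Z _ ?_ ?_ ?_
      · rw [hZ, Finset.mem_filter]
        exact ⟨Finset.mem_univ _, by rw [hMP]; exact hzero⟩
      · intro g hg
        rw [hZ, Finset.mem_filter]
        refine ⟨Finset.mem_univ _, ?_⟩
        have h1 := hg 1 (one_mem _)
        rwa [Units.val_one, mul_one] at h1
      · intro ε hε
        obtain ⟨g, -, hg⟩ := irr_fin hF.gen (Finset.univ : Finset S.Γ) (fun g => tl (M (ε g) * Y x0) F) (by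
          intro h hh
          rw [← hprod ε hε h hh]
          exact Finset.prod_congr rfl fun g _ => by rw [pe_tl, mul_assoc])
        refine ⟨g, fun h hh => ?_⟩
        have := hg h hh
        rwa [pe_tl, mul_assoc] at this
    -- the contradiction
    apply hne
    have h1 := hone u huG
    rwa [← mul_assoc, hMP] at h1

end Pool.Agent.E8helper42.GF
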