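import Mathlib

/-!
# Galois data over an integrally closed domain
-/

set_option autoImplicit false
set_option linter.unusedSectionVars false

namespace Pool.Agent.E8helper42.GF

/-- the Galois data of finitely many algebraic elements -/
structure GA (A L I : Type) [CommRing A] [Field L] [Algebra A L] (F : I → L) where
  /-- the group -/
  Γ : Type
  [gr : Group Γ]
  [fin : Fintype Γ]
  [dec : DecidableEq Γ]
  /-- the ring -/
  R : Type
  [cr : CommRing R]
  [dom : IsDomain R]
  [al : Algebra A R]
  inj : Function.Injective (algebraMap A R)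
  int : ∀ r : R, IsIntegral A r
  /-- the action -/
  σ : Γ →* (R ≃ₐ[A] R)
  /-- the multiples of the elements -/
  β : I → R
  /-- a generator -/
  θ : R
  /-- the denominator -/
  d₀ : A
  /-- the discriminant -/
  Δ : A
  d₀_ne : d₀ ≠ 0
  Δ_ne : Δ ≠ 0
  invar : ∀ z : R, (∀ g, σ g z = z) → ∃ a : A, algebraMap A R a = z
  rel : ∀ p : MvPolynomial I A, MvPolynomial.aeval β p = 0 → MvPolynomial.aeval (fun i => d₀ • F i) p = 0
  disc : algebraMap A R Δ = ∏ p ∈ (Finset.univ : Finset Γ).offDiag, (σ p.1 θ - σ p.2 θ)

attribute [instance] GA.gr GA.fin GA.dec GA.cr GA.dom GA.al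

/-- Galois extensions -/
theorem exists_GA_gal {A E N I : Type} [CommRing A] [IsDomain A] [IsIntegrallyClosed A] [Field E] [Algebra A E]
    [IsFractionRing A E] [Field N] [Algebra E N] [Algebra A N] [IsScalarTower A E N] [FiniteDimensional E N]
    [IsGalois E N] [Finite I] (F : I → N) : Nonempty (GA A N I F) := by
  classical
  let _ : Fintype I := Fintype.ofFinite I
  let R : Type := integralClosure A N
  let iR : CommRing R := inferInstanceAs (CommRing (integralClosure A N))
  let iAR : Algebra A R := inferInstanceAs (Algebra A (integralClosure A N))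
  let iRN : Algebra R N := inferInstanceAs (Algebra (integralClosure A N) N)
  have hIC : IsIntegralClosure R A N := integralClosure.isIntegralClosure A N
  have htow : IsScalarTower A R N := inferInstanceAs (IsScalarTower A (integralClosure A N) N)
  have hdom : IsDomain R := inferInstanceAs (IsDomain (integralClosure A N))
  have hAN : Algebra.IsAlgebraic A N :=
    (IsFractionRing.comap_isAlgebraic_iff (A := A) (K := E) (C := N)).2 inferInstance
  have hFrac : IsFractionRing R N := IsIntegralClosure.isFractionRing_of_finite_extension A E N R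
  have hinjAN : Function.Injective (algebraMap A N) := by
    rw [IsScalarTower.algebraMap_eq A E N]
    exact (algebraMap E N).injective.comp (IsFractionRing.injective A E)
  have hRN : Function.Injective (algebraMap R N) := IsFractionRing.injective R N
  have hinjAR : Function.Injective (algebraMap A R) := by
    intro a a' h
    apply hinjAN
    rw [IsScalarTower.algebraMap_apply A R N, h, ← IsScalarTower.algebraMap_apply A R N]
  have hex : ∀ z : N, IsIntegral A z → ∃ r : R, algebraMap R N r = z := fun z hz =>
    IsIntegralClosure.isIntegral_iff.1 hz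
  -- denominators
  obtain ⟨d₀, hd₀, hd₀'⟩ := Algebra.IsAlgebraic.exists_integral_multiples A (Finset.univ.image F)
  have hβ : ∀ i, ∃ r : R, algebraMap R N r = d₀ • F i := fun i =>
    hex _ (hd₀' _ (Finset.mem_image_of_mem _ (Finset.mem_univ i)))
  choose β hβ using hβ
  -- the primitive element
  obtain ⟨α, hα⟩ := Field.exists_primitive_element E N
  obtain ⟨t, ht, htα⟩ := (hAN.isAlgebraic α).exists_integral_multiple
  obtain ⟨θ, hθ⟩ := hex _ htα
  let σ : Gal(N/E) →* (R ≃ₐ[A] R) := (galRestrict A E N R).toMonoidHom
  have hσ : ∀ g z, algebraMap R N (σ g z) = g (algebraMap R N z) := fun g z => algebraMap_galRestrict_apply A g z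
  have hθinj : Function.Injective fun g => σ g θ := by
    intro g h hgh
    have h1 := congrArg (algebraMap R N) hgh
    simp only [hσ] at h1
    have h2 : algebraMap R N θ = algebraMap E N (algebraMap A E t) * α := by
      rw [hθ, Algebra.smul_def, IsScalarTower.algebraMap_apply A E N]
    rw [h2, map_mul, map_mul, AlgEquiv.commutes, AlgEquiv.commutes] at h1
    have ht' : algebraMap E N (algebraMap A E t) ≠ 0 := by
      rw [← IsScalarTower.algebraMap_apply]
      exact (map_ne_zero_iff _ hinjAN).2 ht
    have h3 := mul_left_cancel₀ ht' h1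
    have h4 : Algebra.adjoin E {α} = (⊤ : Subalgebra E N) := by
      rw [← IntermediateField.adjoin_simple_toSubalgebra_of_isAlgebraic (Algebra.IsAlgebraic.isAlgebraic α), hα,
        IntermediateField.top_toSubalgebra]
    have h5 : (g : N →ₐ[E] N) = (h : N →ₐ[E] N) := by
      refine AlgHom.ext_of_adjoin_eq_top h4 ?_
      intro z hz'
      rw [Set.mem_singleton_iff.1 hz']
      exact h3
    exact AlgEquiv.ext fun z => DFunLike.congr_fun h5 z
  have hinv : ∀ z : R, (∀ g, σ g z = z) → ∃ a : A, algebraMap A R a = z := by
    intro z hz'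
    have h1 := Algebra.isInvariant_of_isGalois A E N R
    exact h1.isInvariant z hz'
  let _ : Fintype Gal(N/E) := Fintype.ofFinite _
  -- the discriminant
  let Δ : R := ∏ p ∈ (Finset.univ : Finset Gal(N/E)).offDiag, (σ p.1 θ - σ p.2 θ)
  have hΔ : Δ ≠ 0 := by
    refine Finset.prod_ne_zero_iff.2 fun p hp => sub_ne_zero.2 fun h => ?_
    exact (Finset.mem_offDiag.1 hp).2.2 (hθinj h)
  have hΔinv : ∀ g, σ g Δ = Δ := by
    intro g
    rw [map_prod]
    refine Finset.prod_bij (fun p _ => (g * p.1, g * p.2)) ?_ ?_ ?_ ?_
    · intro p hp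
      rw [Finset.mem_offDiag] at hp ⊢
      exact ⟨Finset.mem_univ _, Finset.mem_univ _, fun h => hp.2.2 (mul_left_cancel h)⟩
    · intro p _ q _ h
      rw [Prod.mk.injEq] at h
      exact Prod.ext (mul_left_cancel h.1) (mul_left_cancel h.2)
    · intro p hp
      rw [Finset.mem_offDiag] at hp
      refine ⟨(g⁻¹ * p.1, g⁻¹ * p.2), ?_, ?_⟩
      · rw [Finset.mem_offDiag]
        exact ⟨Finset.mem_univ _, Finset.mem_univ _, fun h => hp.2.2 (mul_left_cancel h)⟩
      · simp
    · intro p _
      rw [map_sub, map_mul, map_mul]
      rfl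
  obtain ⟨a, ha⟩ := hinv Δ hΔinv
  have ha0 : a ≠ 0 := by
    rintro rfl
    apply hΔ
    rw [← ha, map_zero]
  exact ⟨{ Γ := Gal(N/E), R := R, inj := hinjAR, int := fun r => IsIntegralClosure.isIntegral A N r, σ := σ, β := β,
           θ := θ, d₀ := d₀, Δ := a, d₀_ne := hd₀, Δ_ne := ha0, invar := hinv, disc := ha,
           rel := by
             intro p hp
             have h2 := congrArg (IsScalarTower.toAlgHom A R N) hp
             rw [map_zero, MvPolynomial.comp_aeval_apply] at h2
             rw [← h2]
             congr 2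
             funext i
             exact (hβ i).symm }⟩

theorem exists_GA {A L I : Type} [CommRing A] [IsDomain A] [IsIntegrallyClosed A] [CharZero A] [Field L] [Algebra A L]
    [FaithfulSMul A L] [Finite I] (F : I → L) (hF : ∀ i, IsAlgebraic A (F i)) : Nonempty (GA A L I F) := by
  classical
  let _ : Fintype I := Fintype.ofFinite I
  let E : Type := FractionRing A
  let iE : Field E := inferInstanceAs (Field (FractionRing A))
  let iAE : Algebra A E := inferInstanceAs (Algebra A (FractionRing A))
  have iAEf : IsFractionRing A E := inferInstanceAs (IsFractionRing A (FractionRing A))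
  let iEL : Algebra E L := FractionRing.liftAlgebra A L
  have htEL : IsScalarTower A E L := FractionRing.isScalarTower_liftAlgebra A L
  have hFint : ∀ i, IsIntegral E (F i) := fun i =>
    ((hF i).extendScalars (IsFractionRing.injective A E)).isIntegral
  let K0 : IntermediateField E L := IntermediateField.adjoin E (Set.range F)
  have hK0 : Algebra.IsAlgebraic E K0 := IntermediateField.isAlgebraic_adjoin (by
    rintro _ ⟨i, rfl⟩
    exact hFint i)
  let Ω : Type := AlgebraicClosure E
  let iΩ : Field Ω := inferInstanceAs (Field (AlgebraicClosure E))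
  let iEΩ : Algebra E Ω := inferInstanceAs (Algebra E (AlgebraicClosure E))
  have iΩc : IsAlgClosed Ω := inferInstanceAs (IsAlgClosed (AlgebraicClosure E))
  let iAΩ : Algebra A Ω := inferInstanceAs (Algebra A (AlgebraicClosure E))
  have htΩ : IsScalarTower A E Ω := inferInstanceAs (IsScalarTower A E (AlgebraicClosure E))
  let ι : K0 →ₐ[E] Ω := IsAlgClosed.lift
  let F0 : I → K0 := fun i => ⟨F i, IntermediateField.subset_adjoin E _ ⟨i, rfl⟩⟩
  let f : I → Ω := fun i => ι (F0 i)
  have hfint : ∀ i, IsIntegral E (f i) := fun i => (hK0.isAlgebraic (F0 i)).isIntegral.map ι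
  let pol : Polynomial E := ∏ i, minpoly E (f i)
  have hpol : pol ≠ 0 := Finset.prod_ne_zero_iff.2 fun i _ => minpoly.ne_zero (hfint i)
  let N : IntermediateField E Ω := IntermediateField.adjoin E (pol.rootSet Ω)
  have hsplit : pol.IsSplittingField E N := IntermediateField.adjoin_rootSet_isSplittingField (IsAlgClosed.splits _)
  have hfd : FiniteDimensional E N := Polynomial.IsSplittingField.finiteDimensional N pol
  have hnorm : Normal E N := Normal.of_isSplittingField pol
  have hcharE : CharZero E := charZero_of_injective_algebraMap (IsFractionRing.injective A E)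
  have hsep : Algebra.IsSeparable E N := Algebra.IsAlgebraic.isSeparable_of_perfectField
  have hgal : IsGalois E N := ⟨⟩
  have hfN : ∀ i, f i ∈ N := by
    intro i
    refine IntermediateField.subset_adjoin E _ ?_
    rw [Polynomial.mem_rootSet]
    refine ⟨hpol, ?_⟩
    have h1 : pol = minpoly E (f i) * ∏ j ∈ Finset.univ.erase i, minpoly E (f j) :=
      (Finset.mul_prod_erase Finset.univ _ (Finset.mem_univ i)).symm
    rw [h1, map_mul, minpoly.aeval, zero_mul]
  let fN : I → N := fun i => ⟨f i, hfN i⟩
  obtain ⟨S⟩ := exists_GA_gal (A := A) (E := E) (N := N) fN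
  refine ⟨{ Γ := S.Γ, R := S.R, inj := S.inj, int := S.int, σ := S.σ, β := S.β, θ := S.θ, d₀ := S.d₀, Δ := S.Δ,
            d₀_ne := S.d₀_ne, Δ_ne := S.Δ_ne, invar := S.invar, disc := S.disc, rel := ?_ }⟩
  intro p hp
  have h1 := S.rel p hp
  have h2 : MvPolynomial.aeval (fun i => S.d₀ • f i) p = 0 := by
    have h3 : (N.val.restrictScalars A) (MvPolynomial.aeval (fun i => S.d₀ • fN i) p) =
        MvPolynomial.aeval (fun i => S.d₀ • f i) p := by
      rw [MvPolynomial.comp_aeval_apply]
      rfl
    rw [← h3, h1, map_zero]
  have h3 : MvPolynomial.aeval (fun i => S.d₀ • F0 i) p = 0 := by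
    have h4 : (ι.restrictScalars A) (MvPolynomial.aeval (fun i => S.d₀ • F0 i) p) =
        MvPolynomial.aeval (fun i => S.d₀ • f i) p := by
      rw [MvPolynomial.comp_aeval_apply]
      congr 2
      funext i
      change (ι.restrictScalars A) (S.d₀ • F0 i) = S.d₀ • (ι.restrictScalars A) (F0 i)
      rw [Algebra.smul_def, Algebra.smul_def, map_mul, AlgHom.commutes]
    have h5 : Function.Injective (ι.restrictScalars A) := ι.toRingHom.injective
    apply h5
    rw [h4, h2, map_zero]
  have h5 : (K0.val.restrictScalars A) (MvPolynomial.aeval (fun i => S.d₀ • F0 i) p) =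
      MvPolynomial.aeval (fun i => S.d₀ • F i) p := by
    rw [MvPolynomial.comp_aeval_apply]
    rfl
  rw [← h5, h3, map_zero]

end Pool.Agent.E8helper42.GF
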