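import Pool.Agent.Y890.MV.Ana

/-!
# The Galois group of finitely many algebraic functions, and the values at the points of the base
-/

set_option autoImplicit false
set_option linter.unusedSectionVars false

namespace Pool.Agent.E8helper42.GF

open Pool.Agent.Y890.MV

/-- the function `g` is algebraic over `ℂ(x)` on `U` -/
def AlgF {X : Type} (U : Set (X → ℂ)) (g : (X → ℂ) → ℂ) : Prop :=
  ∃ R : Polynomial (MvPolynomial X ℂ), R ≠ 0 ∧ ∀ x ∈ U, (R.map (MvPolynomial.eval x)).eval (g x) = 0

/-- a finite group acting on a ring over `ℂ[x]`, with elements which specialize to the functions `d₀ * b i` -/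
structure GD {X I : Type} (U : Set (X → ℂ)) (b : I → (X → ℂ) → ℂ) where
  /-- the group -/
  Γ : Type
  [gr : Group Γ]
  [fin : Fintype Γ]
  [dec : DecidableEq Γ]
  /-- the ring -/
  R : Type
  [cr : CommRing R]
  [al : Algebra (MvPolynomial X ℂ) R]
  inj : Function.Injective (algebraMap (MvPolynomial X ℂ) R)
  /-- the action -/
  σ : Γ →* (R ≃ₐ[MvPolynomial X ℂ] R)
  /-- the multiples of the functions -/
  β : I → R
  /-- a generator -/
  θ : R
  /-- the denominator -/
  d₀ : MvPolynomial X ℂ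
  /-- the bad points -/
  D : MvPolynomial X ℂ
  d₀_ne : d₀ ≠ 0
  D_ne : D ≠ 0
  invar : ∀ z : R, (∀ g, σ g z = z) → ∃ a : MvPolynomial X ℂ, algebraMap (MvPolynomial X ℂ) R a = z
  ev : ∀ x ∈ U, MvPolynomial.eval x D ≠ 0 → MvPolynomial.eval x d₀ ≠ 0 ∧
    ∃ e : R →+* ℂ, (∀ a, e (algebraMap (MvPolynomial X ℂ) R a) = MvPolynomial.eval x a) ∧
      (∀ i, e (β i) = MvPolynomial.eval x d₀ * b i x) ∧ Function.Injective fun g => e (σ g θ)

attribute [instance] GD.gr GD.fin GD.dec GD.cr GD.al

section place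

variable {X I R : Type} [CommRing R] [Algebra (MvPolynomial X ℂ) R]

/-- extension of specializations -/
theorem exists_place (hint : ∀ r : R, IsIntegral (MvPolynomial X ℂ) r) (β : I → R) (x : X → ℂ) (c : I → ℂ)
    (hc : ∀ p : MvPolynomial I (MvPolynomial X ℂ), MvPolynomial.aeval β p = 0 →
      MvPolynomial.eval₂ (MvPolynomial.eval x) c p = 0) :
    ∃ e : R →+* ℂ, (∀ a, e (algebraMap (MvPolynomial X ℂ) R a) = MvPolynomial.eval x a) ∧ ∀ i, e (β i) = c i := by
  classical
  let A : Type := MvPolynomial X ℂ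
  let S : Type := MvPolynomial I (MvPolynomial X ℂ)
  let iS : CommRing S := inferInstanceAs (CommRing (MvPolynomial I (MvPolynomial X ℂ)))
  let iAS : Algebra (MvPolynomial X ℂ) S := inferInstanceAs (Algebra (MvPolynomial X ℂ) (MvPolynomial I (MvPolynomial X ℂ)))
  let π : S →ₐ[MvPolynomial X ℂ] R := MvPolynomial.aeval β
  let φ : S →+* ℂ := MvPolynomial.eval₂Hom (MvPolynomial.eval x) c
  have hφC : ∀ a : MvPolynomial X ℂ, φ (MvPolynomial.C a) = MvPolynomial.eval x a := fun a =>
    MvPolynomial.eval₂Hom_C _ _ _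
  have hφX : ∀ i, φ (MvPolynomial.X i) = c i := fun i => MvPolynomial.eval₂Hom_X' _ _ _
  have hsurj : Function.Surjective φ := fun z => ⟨MvPolynomial.C (MvPolynomial.C z), by
    rw [hφC, MvPolynomial.eval_C]⟩
  let P : Ideal S := RingHom.ker φ
  have hPmax : P.IsMaximal := RingHom.ker_isMaximal_of_surjective φ hsurj
  let algSR : Algebra S R := π.toRingHom.toAlgebra
  have htow : IsScalarTower (MvPolynomial X ℂ) S R := IsScalarTower.of_algebraMap_eq fun a => (π.commutes a).symm
  have hSR : ∀ p : S, algebraMap S R p = π p := fun _ => rfl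
  have hI : Algebra.IsIntegral S R := ⟨fun r => (hint r).tower_top⟩
  have hker : RingHom.ker (algebraMap S R) ≤ P := by
    intro p hp
    exact hc p hp
  obtain ⟨Q, hQmax, hQ⟩ := Ideal.exists_ideal_over_maximal_of_isIntegral P hker
  have hmem : ∀ p : S, φ p = 0 → π p ∈ Q := by
    intro p hp
    have h1 : p ∈ Q.comap (algebraMap S R) := by
      rw [hQ]
      exact hp
    exact h1
  let mk : R →+* R ⧸ Q := Ideal.Quotient.mk Q
  let ψ : ℂ →+* R ⧸ Q := mk.comp (π.toRingHom.comp (MvPolynomial.C.comp MvPolynomial.C))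
  have hψ : ∀ p : S, mk (π p) = ψ (φ p) := by
    intro p
    have h1 : π (p - MvPolynomial.C (MvPolynomial.C (φ p))) ∈ Q := by
      apply hmem
      rw [map_sub, hφC, MvPolynomial.eval_C, sub_self]
    have h2 := Ideal.Quotient.eq_zero_iff_mem.2 h1
    rw [map_sub, map_sub, sub_eq_zero] at h2
    exact h2
  have hψA : ∀ a : MvPolynomial X ℂ, mk (algebraMap (MvPolynomial X ℂ) R a) = ψ (MvPolynomial.eval x a) := by
    intro a
    rw [← hφC a, ← hψ]
    congr 1
    exact (π.commutes a).symm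
  have hdomQ : IsDomain (R ⧸ Q) := Ideal.Quotient.isDomain Q
  have hψint : ψ.IsIntegral := by
    intro z
    obtain ⟨r, rfl⟩ := Ideal.Quotient.mk_surjective z
    obtain ⟨q, hq, hqr⟩ := hint r
    refine ⟨q.map (MvPolynomial.eval x), hq.map _, ?_⟩
    rw [Polynomial.eval₂_map]
    have h1 : (ψ.comp (MvPolynomial.eval x)) = mk.comp (algebraMap (MvPolynomial X ℂ) R) := by
      refine RingHom.ext fun a => ?_
      exact (hψA a).symm
    rw [h1]
    have h2 := Polynomial.hom_eval₂ q (algebraMap (MvPolynomial X ℂ) R) mk r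
    rw [← h2, hqr, map_zero]
  have hbij := IsAlgClosed.ringHom_bijective_of_isIntegral ψ hψint
  let e1 : ℂ ≃+* R ⧸ Q := RingEquiv.ofBijective ψ hbij
  have he1 : ∀ z, e1.symm (ψ z) = z := fun z => e1.symm_apply_apply z
  refine ⟨e1.symm.toRingHom.comp mk, fun a => ?_, fun i => ?_⟩
  · change e1.symm (mk (algebraMap (MvPolynomial X ℂ) R a)) = _
    rw [hψA, he1]
  · change e1.symm (mk (β i)) = _
    have h1 : β i = π (MvPolynomial.X i) := (MvPolynomial.aeval_X β i).symm
    rw [h1, hψ, he1, hφX]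

end place

end Pool.Agent.E8helper42.GF
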