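import Pool.Agent.E8helper42.GF.GalD
import Pool.Agent.E8helper42.GF.GalA

/-!
# Existence of the Galois data
-/

set_option autoImplicit false
set_option linter.unusedSectionVars false

namespace Pool.Agent.E8helper42.GF

open Pool.Agent.Y890.MV

section field

variable {X I : Type} [Fintype X] {U : Set (X → ℂ)} {b : I → (X → ℂ) → ℂ}

/-- the functions are algebraic elements of the field -/
lemma isAlg_field {L : Type} [Field L] [Algebra (MvPolynomial X ℂ) L] {F : I → L}
    (hz : ∀ p : MvPolynomial I (MvPolynomial X ℂ), MvPolynomial.aeval F p = 0 ↔ ∀ x ∈ U, evM b x p = 0)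
    (i : I) (h : AlgF U (b i)) : IsAlgebraic (MvPolynomial X ℂ) (F i) := by
  obtain ⟨R, hR, hRb⟩ := h
  refine ⟨R, hR, ?_⟩
  have h1 : MvPolynomial.aeval F (R.eval₂ MvPolynomial.C (MvPolynomial.X i)) = Polynomial.aeval (F i) R := by
    have h2 := Polynomial.hom_eval₂ R (MvPolynomial.C : MvPolynomial X ℂ →+* MvPolynomial I (MvPolynomial X ℂ))
      ((MvPolynomial.aeval F : MvPolynomial I (MvPolynomial X ℂ) →ₐ[MvPolynomial X ℂ] L).toRingHom) (MvPolynomial.X i)
    have h3 : ((MvPolynomial.aeval F : MvPolynomial I (MvPolynomial X ℂ) →ₐ[MvPolynomial X ℂ] L).toRingHom).comp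
        (MvPolynomial.C : MvPolynomial X ℂ →+* MvPolynomial I (MvPolynomial X ℂ)) = algebraMap (MvPolynomial X ℂ) L :=
      RingHom.ext fun a => MvPolynomial.aeval_C _ _
    rw [h3] at h2
    have h4 : ((MvPolynomial.aeval F : MvPolynomial I (MvPolynomial X ℂ) →ₐ[MvPolynomial X ℂ] L).toRingHom)
        (MvPolynomial.X i) = F i := MvPolynomial.aeval_X _ _
    rw [h4] at h2
    exact h2
  rw [← h1, hz]
  intro x hx
  have h2 := Polynomial.hom_eval₂ R (MvPolynomial.C : MvPolynomial X ℂ →+* MvPolynomial I (MvPolynomial X ℂ))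
    (MvPolynomial.eval₂Hom (MvPolynomial.eval x) fun i => b i x) (MvPolynomial.X i)
  have h3 : (MvPolynomial.eval₂Hom (MvPolynomial.eval x) fun i => b i x).comp
      (MvPolynomial.C : MvPolynomial X ℂ →+* MvPolynomial I (MvPolynomial X ℂ)) = MvPolynomial.eval x :=
    RingHom.ext fun a => MvPolynomial.eval₂Hom_C _ _ _
  rw [h3, MvPolynomial.eval₂Hom_X'] at h2
  rw [← hRb x hx, Polynomial.eval_map, ← h2]
  rfl

variable [Finite I]

/-- **Existence of the Galois data.** -/
theorem exists_GD (hU : IsPreconnected U) (hUo : IsOpen U) (hne : U.Nonempty) (hb : ∀ i, AnalyticOnNhd ℂ (b i) U)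
    (halg : ∀ i, AlgF U (b i)) : Nonempty (GD U b) := by
  classical
  obtain ⟨L, iL, iAL, hfaith, F, hz, -⟩ := exists_fieldM hU hUo hne hb
  obtain ⟨S⟩ := exists_GA (A := MvPolynomial X ℂ) F fun i => isAlg_field hz i (halg i)
  refine ⟨{ Γ := S.Γ, R := S.R, inj := S.inj, σ := S.σ, β := S.β, θ := S.θ, d₀ := S.d₀, D := S.d₀ * S.Δ,
            d₀_ne := S.d₀_ne, D_ne := mul_ne_zero S.d₀_ne S.Δ_ne, invar := S.invar, ev := ?_ }⟩
  intro x hx hD
  rw [map_mul] at hD
  refine ⟨left_ne_zero_of_mul hD, ?_⟩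
  obtain ⟨e, he1, he2⟩ := exists_place S.int S.β x (fun i => MvPolynomial.eval x S.d₀ * b i x) (by
    intro p hp
    have h4 := S.rel p hp
    have h5 : MvPolynomial.aeval F (MvPolynomial.bind₁ (fun i => MvPolynomial.C S.d₀ * MvPolynomial.X i) p) = 0 := by
      rw [MvPolynomial.aeval_bind₁, ← h4]
      congr 2
      funext i
      rw [map_mul, MvPolynomial.aeval_C, MvPolynomial.aeval_X, Algebra.smul_def]
    have h6 := (hz _).1 h5 x hx
    rw [← h6]
    unfold evM
    have h7 : (MvPolynomial.eval₂Hom (MvPolynomial.eval x) fun i => b i x).comp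
        ((MvPolynomial.bind₁ (fun i : I => MvPolynomial.C S.d₀ * MvPolynomial.X i) :
          MvPolynomial I (MvPolynomial X ℂ) →ₐ[MvPolynomial X ℂ] MvPolynomial I (MvPolynomial X ℂ)) :
            MvPolynomial I (MvPolynomial X ℂ) →+* MvPolynomial I (MvPolynomial X ℂ)) =
        MvPolynomial.eval₂Hom (MvPolynomial.eval x) (fun i => MvPolynomial.eval x S.d₀ * b i x) := by
      apply MvPolynomial.ringHom_ext
      · intro a
        simp
      · intro i
        simp
    exact (RingHom.congr_fun h7 p).symm)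
  refine ⟨e, he1, he2, ?_⟩
  intro g h hgh
  by_contra hne'
  apply right_ne_zero_of_mul hD
  rw [← he1, S.disc, map_prod]
  refine Finset.prod_eq_zero (i := (g, h)) (Finset.mem_offDiag.2 ⟨Finset.mem_univ _, Finset.mem_univ _, hne'⟩) ?_
  rw [map_sub]
  exact sub_eq_zero.2 hgh

end field

end Pool.Agent.E8helper42.GF
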