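import Pool.Agent.Y119.PLM.GReg

/-!
# Groups generated by polynomial curves: irreducibility
-/

set_option autoImplicit false
set_option linter.unusedSectionVars false

open Matrix Polynomial

namespace Pool.Agent.E8helper42.GF

open Pool.Agent.Y119.PLM

variable {κ : Type} {n : κ → ℕ}

/-- tuples of square matrices of polynomials -/
abbrev MP (n : κ → ℕ) : Type := (j : κ) → Matrix (Fin (n j)) (Fin (n j)) ℂ[X]

/-- the value at a number -/
noncomputable def ev (c : ℂ) (M : MP n) : MT n := fun j => (M j).map (Polynomial.eval c)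

lemma ev_mul (c : ℂ) (M M' : MP n) : ev c (M * M') = ev c M * ev c M' := by
  funext j
  unfold ev
  rw [Pi.mul_apply, Pi.mul_apply]
  ext a b
  rw [Matrix.map_apply, Matrix.mul_apply, Matrix.mul_apply, Polynomial.eval_finsetSum]
  simp only [Polynomial.eval_mul, Matrix.map_apply]

lemma ev_one (c : ℂ) : ev c (1 : MP n) = 1 := by
  funext j
  unfold ev
  rw [Pi.one_apply, Pi.one_apply]
  ext a b
  rw [Matrix.map_apply, Matrix.one_apply, Matrix.one_apply]
  split_ifs <;> simp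

/-- reversal `t ↦ 1 - t` -/
noncomputable def rv (M : MP n) : MP n := fun j => (M j).map fun p => p.comp (1 - X)

lemma ev_rv (c : ℂ) (M : MP n) : ev c (rv M) = ev (1 - c) M := by
  funext j
  unfold ev rv
  ext a b
  simp only [Matrix.map_apply, Polynomial.eval_comp, Polynomial.eval_sub, Polynomial.eval_one, Polynomial.eval_X]

/-- every element is connected with `1` by a polynomial curve in the group -/
lemma exists_curve {G : Subgroup (MT n)ˣ} (hG : UGen G) {g : (MT n)ˣ} (hg : g ∈ G) :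
    ∃ M : MP n, (∀ c : ℂ, ∃ k ∈ G, (k : MT n) = ev c M) ∧ ev 0 M = 1 ∧ ev 1 M = g := by
  have h1 := hG g hg
  induction h1 using Submonoid.closure_induction with
  | mem h hh =>
    obtain ⟨M, h1, h2, h3⟩ := hh
    exact ⟨M, h1, h2, h3⟩
  | one => exact ⟨1, fun c => ⟨1, one_mem _, by rw [ev_one]; rfl⟩, ev_one 0, by rw [ev_one]; rfl⟩
  | mul x y hx hy ihx ihy =>
    have hmem : ∀ z, z ∈ Submonoid.closure {h : (MT n)ˣ | ∃ M : (j : κ) → Matrix (Fin (n j)) (Fin (n j)) ℂ[X],
        (∀ c : ℂ, ∃ k ∈ G, (k : MT n) = fun j => (M j).map (Polynomial.eval c)) ∧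
        (fun j => (M j).map (Polynomial.eval 0) : MT n) = 1 ∧ (fun j => (M j).map (Polynomial.eval 1) : MT n) = h} →
        z ∈ G := by
      intro z hz
      have h2 : Submonoid.closure {h : (MT n)ˣ | ∃ M : (j : κ) → Matrix (Fin (n j)) (Fin (n j)) ℂ[X],
        (∀ c : ℂ, ∃ k ∈ G, (k : MT n) = fun j => (M j).map (Polynomial.eval c)) ∧
        (fun j => (M j).map (Polynomial.eval 0) : MT n) = 1 ∧
        (fun j => (M j).map (Polynomial.eval 1) : MT n) = h} ≤ G.toSubmonoid := by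
        rw [Submonoid.closure_le]
        rintro h ⟨M, h1, h2, h3⟩
        obtain ⟨k, hk, hk1⟩ := h1 1
        have : k = h := Units.ext (hk1.trans h3)
        rw [← this]
        exact hk
      exact h2 hz
    obtain ⟨M, h1, h2, h3⟩ := ihx (hmem _ hx)
    obtain ⟨M', h1', h2', h3'⟩ := ihy (hmem _ hy)
    refine ⟨M * M', fun c => ?_, by rw [ev_mul, h2, h2', mul_one], by rw [ev_mul, h3, h3', Units.val_mul]⟩
    obtain ⟨k, hk, hk1⟩ := h1 c
    obtain ⟨k', hk', hk1'⟩ := h1' c
    exact ⟨k * k', mul_mem hk hk', by rw [ev_mul, ← hk1, ← hk1', Units.val_mul]⟩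

/-- any two elements are connected by a polynomial curve in the group -/
lemma exists_join {G : Subgroup (MT n)ˣ} (hG : UGen G) {g g' : (MT n)ˣ} (hg : g ∈ G) (hg' : g' ∈ G) :
    ∃ M : MP n, (∀ c : ℂ, ∃ k ∈ G, (k : MT n) = ev c M) ∧ ev 0 M = g' ∧ ev 1 M = g := by
  obtain ⟨M, h1, h2, h3⟩ := exists_curve hG hg
  obtain ⟨M', h1', h2', h3'⟩ := exists_curve hG hg'
  refine ⟨M * rv M', fun c => ?_, ?_, ?_⟩
  · obtain ⟨k, hk, hk1⟩ := h1 c
    obtain ⟨k', hk', hk1'⟩ := h1' (1 - c)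
    exact ⟨k * k', mul_mem hk hk', by rw [ev_mul, ev_rv, ← hk1, ← hk1', Units.val_mul]⟩
  · rw [ev_mul, ev_rv, h2, one_mul, sub_zero, h3']
  · rw [ev_mul, ev_rv, sub_self, h2', mul_one, h3]

/-- the group is irreducible -/
lemma irr_two {G : Subgroup (MT n)ˣ} (hG : UGen G) (p q : MvPolynomial (Ix n) ℂ)
    (h : ∀ g ∈ G, pe p (g : MT n) * pe q (g : MT n) = 0) :
    (∀ g ∈ G, pe p (g : MT n) = 0) ∨ ∀ g ∈ G, pe q (g : MT n) = 0 := by
  by_contra hcon
  push Not at hcon
  obtain ⟨⟨g, hg, hgp⟩, g', hg', hgq⟩ := hcon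
  obtain ⟨M, h1, h2, h3⟩ := exists_join hG hg hg'
  obtain ⟨a, ha⟩ := exists_pe p M
  obtain ⟨b, hb⟩ := exists_pe q M
  have hab : a * b = 0 := by
    refine zero_of_nat fun m => ?_
    obtain ⟨k, hk, hk1⟩ := h1 m
    rw [Polynomial.eval_mul, ha, hb]
    have h4 := h k hk
    rw [hk1] at h4
    exact h4
  rcases mul_eq_zero.1 hab with h0 | h0
  · apply hgp
    have h4 := ha 1
    rw [h0, Polynomial.eval_zero] at h4
    rw [← h3]
    exact h4.symm
  · apply hgq
    have h4 := hb 0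
    rw [h0, Polynomial.eval_zero] at h4
    rw [← h2]
    exact h4.symm

/-- finite products -/
lemma irr_fin {G : Subgroup (MT n)ˣ} (hG : UGen G) {ι : Type} (s : Finset ι) (p : ι → MvPolynomial (Ix n) ℂ)
    (h : ∀ g ∈ G, ∏ i ∈ s, pe (p i) (g : MT n) = 0) : ∃ i ∈ s, ∀ g ∈ G, pe (p i) (g : MT n) = 0 := by
  classical
  induction s using Finset.induction_on with
  | empty =>
    have h1 := h 1 (one_mem _)
    rw [Finset.prod_empty] at h1
    exact absurd h1 one_ne_zero
  | insert i s hi ih =>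
    have hpe : ∀ g : MT n, pe (∏ i ∈ s, p i) g = ∏ i ∈ s, pe (p i) g := fun g => by
      unfold pe
      rw [map_prod]
    rcases irr_two hG (p i) (∏ i ∈ s, p i) (fun g hg => by
      have h1 := h g hg
      rw [Finset.prod_insert hi] at h1
      rw [hpe, h1]) with h1 | h1
    · exact ⟨i, Finset.mem_insert_self _ _, h1⟩
    · obtain ⟨j, hj, hj'⟩ := ih fun g hg => by rw [← hpe]; exact h1 g hg
      exact ⟨j, Finset.mem_insert_of_mem hj, hj'⟩

end Pool.Agent.E8helper42.GF
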