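import Pool.Agent.E8helper42.GF.Exc
import Pool.Agent.Y890.MV.TorExc

/-!
# Families in torsors under groups generated by polynomial curves: few exceptional points
-/

set_option autoImplicit false
set_option linter.unusedSectionVars false

namespace Pool.Agent.E8helper42.GF

open NumberField Filter
open Pool.Agent.Y890.MV
open Pool.Agent.Y890.SP (Qbar)
open Pool.Agent.Y119.PLM (MT Ix vt GalT pe UGen sum_expM tl pe_tl IsRelT)
open Pool.Agent.Y985.OR (ExcB)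
open Pool.Agent.Y124 (Cov)

section hyp

variable {X κ : Type} [Fintype X] {n : κ → ℕ}

/-- the value of a polynomial in the coordinates and the entries of two tuples of matrices -/
noncomputable def v2 (R : MvPolynomial (Ix n ⊕ Ix n) (MvPolynomial X ℂ)) (x : X → ℂ) (A A' : MT n) : ℂ :=
  MvPolynomial.eval₂ (MvPolynomial.eval x)
    (Sum.elim (fun i : Ix n => A i.1 i.2.1 i.2.2) fun i : Ix n => A' i.1 i.2.1 i.2.2) R

/-- families in torsors `B G` with algebraic sections `B` -/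
structure Hyp (U : Set (X → ℂ)) (P B : (X → ℂ) → MT n) (G : Subgroup (MT n)ˣ) : Prop where
  pre : IsPreconnected U
  op : IsOpen U
  ne : U.Nonempty
  anP : ∀ j a b, AnalyticOnNhd ℂ (fun x => P x j a b) U
  anB : ∀ j a b, AnalyticOnNhd ℂ (fun x => B x j a b) U
  alg : ∀ j a b, AlgF U (fun x => B x j a b)
  det : ∀ j, ∃ x ∈ U, (B x j).det ≠ 0
  mem : ∀ x ∈ U, (∀ j, (B x j).det ≠ 0) → ∃ g ∈ G, P x = B x * (g : MT n)
  gen : UGen G
  inv : ∀ g ∈ G, ∀ R : MvPolynomial (Ix n ⊕ Ix n) (MvPolynomial X ℂ), (∀ x ∈ U, v2 R x (B x) (P x) = 0) →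
    ∀ x ∈ U, v2 R x (B x) (P x * (g : MT n)) = 0

variable [Fintype κ] [DecidableEq κ]

/-- the generic matrices -/
noncomputable def gm (A : Type) [CommRing A] (j : κ) : Matrix (Fin (n j)) (Fin (n j)) (MvPolynomial (Ix n) A) :=
  Matrix.of fun a b => MvPolynomial.X ⟨j, a, b⟩

/-- the denominator -/
theorem exists_den {U : Set (X → ℂ)} {P B : (X → ℂ) → MT n} {G : Subgroup (MT n)ˣ} (h : Hyp U P B G) :
    ∃ (N : MvPolynomial X ℂ) (Δ : MvPolynomial (Ix n) (MvPolynomial X ℂ)), N ≠ 0 ∧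
      ∀ x ∈ U, (∏ j, (B x j).det) * vt Δ x (B x) = MvPolynomial.eval x N := by
  classical
  obtain ⟨L, iL, iAL, hfaith, F, hz, -⟩ := exists_fieldM h.pre h.op h.ne
    (f := fun (i : Ix n) x => B x i.1 i.2.1 i.2.2) fun i => h.anB i.1 i.2.1 i.2.2
  have halg : ∀ i, IsAlgebraic (MvPolynomial X ℂ) (F i) := fun i =>
    isAlg_field hz i (h.alg i.1 i.2.1 i.2.2)
  set dp : MvPolynomial (Ix n) (MvPolynomial X ℂ) := ∏ j, (gm (n := n) (MvPolynomial X ℂ) j).det with hdp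
  have hdpe : ∀ x A, vt dp x A = ∏ j, (A j).det := by
    intro x A
    unfold vt
    rw [hdp, MvPolynomial.eval₂_prod]
    refine Finset.prod_congr rfl fun j _ => ?_
    rw [← MvPolynomial.coe_eval₂Hom, RingHom.map_det]
    congr 1
    ext a b
    simp [gm]
  have hdetne : MvPolynomial.aeval F dp ≠ 0 := by
    rw [hdp, map_prod]
    refine Finset.prod_ne_zero_iff.2 fun j _ h0 => ?_
    obtain ⟨x, hx, hxd⟩ := h.det j
    apply hxd
    have h1 := (hz _).1 h0 x hx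
    rw [← h1]
    change _ = MvPolynomial.eval₂ _ _ _
    rw [← MvPolynomial.coe_eval₂Hom, RingHom.map_det]
    congr 1
    ext a b
    simp [gm]
  have hdalg : IsAlgebraic (MvPolynomial X ℂ) (MvPolynomial.aeval F dp) := by
    have h1 : Algebra.adjoin (MvPolynomial X ℂ) (Set.range F) ≤ Subalgebra.algebraicClosure (MvPolynomial X ℂ) L :=
      Algebra.adjoin_le (by rintro _ ⟨i, rfl⟩; exact halg i)
    have h2 : MvPolynomial.aeval F dp ∈ Algebra.adjoin (MvPolynomial X ℂ) (Set.range F) := by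
      rw [Algebra.adjoin_range_eq_range_aeval]
      exact ⟨dp, rfl⟩
    exact h1 h2
  obtain ⟨t, ht, r, hr, htr⟩ := hdalg.exists_nonzero_eq_adjoin_mul (mem_nonZeroDivisors_of_ne_zero hdetne)
  rw [Algebra.adjoin_singleton_eq_range_aeval] at ht
  obtain ⟨w, hw⟩ := ht
  refine ⟨r, Polynomial.aeval dp w, hr, fun x hx => ?_⟩
  have h1 : MvPolynomial.aeval F (dp * Polynomial.aeval dp w - MvPolynomial.C r) = 0 := by
    have h2 : MvPolynomial.aeval F (Polynomial.aeval dp w) = t := by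
      rw [← hw]
      exact (Polynomial.aeval_algHom_apply (MvPolynomial.aeval F) dp w).symm
    rw [map_sub, map_mul, h2, htr, MvPolynomial.aeval_C, sub_self]
  have h2 := (hz _).1 h1 x hx
  have h3 : vt (dp * Polynomial.aeval dp w - MvPolynomial.C r) x (B x) = 0 := h2
  have h4 : vt (dp * Polynomial.aeval dp w - MvPolynomial.C r) x (B x) =
      vt dp x (B x) * vt (Polynomial.aeval dp w) x (B x) - MvPolynomial.eval x r := by
    unfold vt
    rw [MvPolynomial.eval₂_sub, MvPolynomial.eval₂_mul, MvPolynomial.eval₂_C]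
  rw [h4, hdpe] at h3
  exact sub_eq_zero.1 h3

/-- the cofactors -/
noncomputable def cf (Δ : MvPolynomial (Ix n) (MvPolynomial X ℂ)) (x : X → ℂ) (A : MT n) : MT n := fun j =>
  (vt Δ x A * ∏ i ∈ Finset.univ.erase j, (A i).det) • (A j).adjugate

/-- the cofactors as polynomials -/
noncomputable def cfp (Δ : MvPolynomial (Ix n) (MvPolynomial X ℂ)) (i : Ix n) : MvPolynomial (Ix n) (MvPolynomial X ℂ) :=
  (Δ * ∏ j ∈ Finset.univ.erase i.1, (gm (n := n) (MvPolynomial X ℂ) j).det) *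
    (gm (n := n) (MvPolynomial X ℂ) i.1).adjugate i.2.1 i.2.2

lemma gm_map (x : X → ℂ) (A : MT n) (j : κ) :
    (gm (n := n) (MvPolynomial X ℂ) j).map (MvPolynomial.eval₂Hom (MvPolynomial.eval x)
      (fun i : Ix n => A i.1 i.2.1 i.2.2)) = A j := by
  ext a b
  simp [gm]

lemma vt_cfp (Δ : MvPolynomial (Ix n) (MvPolynomial X ℂ)) (x : X → ℂ) (A : MT n) (i : Ix n) :
    vt (cfp Δ i) x A = cf Δ x A i.1 i.2.1 i.2.2 := by
  unfold vt cfp cf
  rw [MvPolynomial.eval₂_mul, MvPolynomial.eval₂_mul, MvPolynomial.eval₂_prod, Matrix.smul_apply, smul_eq_mul]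
  congr 1
  · congr 1
    refine Finset.prod_congr rfl fun j _ => ?_
    rw [← MvPolynomial.coe_eval₂Hom, RingHom.map_det]
    congr 1
    exact gm_map x A j
  · rw [← MvPolynomial.coe_eval₂Hom]
    have h1 := RingHom.map_adjugate (MvPolynomial.eval₂Hom (MvPolynomial.eval x)
      (fun i : Ix n => A i.1 i.2.1 i.2.2)) (gm (n := n) (MvPolynomial X ℂ) i.1)
    have h2 := congrFun (congrFun h1 i.2.1) i.2.2
    rw [RingHom.mapMatrix_apply, Matrix.map_apply, RingHom.mapMatrix_apply, gm_map] at h2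
    exact h2

lemma B_cf (Δ : MvPolynomial (Ix n) (MvPolynomial X ℂ)) (x : X → ℂ) (A : MT n) :
    A * cf Δ x A = ((∏ j, (A j).det) * vt Δ x A) • (1 : MT n) := by
  funext j
  rw [Pi.mul_apply]
  unfold cf
  rw [Matrix.mul_smul, Matrix.mul_adjugate, smul_smul, Pi.smul_apply, Pi.one_apply]
  congr 1
  rw [← Finset.mul_prod_erase Finset.univ (fun j => (A j).det) (Finset.mem_univ j)]
  ring

lemma cf_B (Δ : MvPolynomial (Ix n) (MvPolynomial X ℂ)) (x : X → ℂ) (A : MT n) :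
    cf Δ x A * A = ((∏ j, (A j).det) * vt Δ x A) • (1 : MT n) := by
  funext j
  rw [Pi.mul_apply]
  unfold cf
  rw [Matrix.smul_mul, Matrix.adjugate_mul, smul_smul, Pi.smul_apply, Pi.one_apply]
  congr 1
  rw [← Finset.mul_prod_erase Finset.univ (fun j => (A j).det) (Finset.mem_univ j)]
  ring

/-- substitution -/
noncomputable def sb (Δ : MvPolynomial (Ix n) (MvPolynomial X ℂ)) (T : MvPolynomial (Ix n) (MvPolynomial X ℂ)) :
    MvPolynomial (Ix n ⊕ Ix n) (MvPolynomial X ℂ) :=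
  MvPolynomial.bind₁ (fun i : Ix n => ∑ c, MvPolynomial.rename Sum.inl (cfp Δ ⟨i.1, i.2.1, c⟩) *
    MvPolynomial.X (Sum.inr ⟨i.1, c, i.2.2⟩)) T

lemma v2_sb (Δ T : MvPolynomial (Ix n) (MvPolynomial X ℂ)) (x : X → ℂ) (A A' : MT n) :
    v2 (sb Δ T) x A A' = vt T x (cf Δ x A * A') := by
  unfold v2 sb vt
  rw [← MvPolynomial.coe_eval₂Hom, ← MvPolynomial.coe_eval₂Hom]
  have h1 : (MvPolynomial.eval₂Hom (MvPolynomial.eval x)
      (Sum.elim (fun i : Ix n => A i.1 i.2.1 i.2.2) fun i : Ix n => A' i.1 i.2.1 i.2.2)).comp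
      ((MvPolynomial.bind₁ (fun i : Ix n => ∑ c, MvPolynomial.rename Sum.inl (cfp Δ ⟨i.1, i.2.1, c⟩) *
        MvPolynomial.X (Sum.inr ⟨i.1, c, i.2.2⟩)) :
          MvPolynomial (Ix n) (MvPolynomial X ℂ) →ₐ[MvPolynomial X ℂ] MvPolynomial (Ix n ⊕ Ix n) (MvPolynomial X ℂ)) :
            MvPolynomial (Ix n) (MvPolynomial X ℂ) →+* MvPolynomial (Ix n ⊕ Ix n) (MvPolynomial X ℂ)) =
      MvPolynomial.eval₂Hom (MvPolynomial.eval x) (fun i : Ix n => (cf Δ x A * A') i.1 i.2.1 i.2.2) := by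
    apply MvPolynomial.ringHom_ext
    · intro a
      simp
    · intro i
      rw [RingHom.comp_apply, MvPolynomial.eval₂Hom_X', RingHom.coe_coe, MvPolynomial.bind₁_X_right, map_sum,
        Pi.mul_apply, Matrix.mul_apply]
      refine Finset.sum_congr rfl fun c _ => ?_
      rw [map_mul, MvPolynomial.eval₂Hom_X', Sum.elim_inr, MvPolynomial.coe_eval₂Hom, MvPolynomial.eval₂_rename]
      congr 1
      exact vt_cfp Δ x A ⟨i.1, i.2.1, c⟩
  exact RingHom.congr_fun h1 T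

/-- the family `Y` -/
theorem exists_GFam {U : Set (X → ℂ)} {P B : (X → ℂ) → MT n} {G : Subgroup (MT n)ˣ} (h : Hyp U P B G) :
    ∃ (N : MvPolynomial X ℂ) (Y : (X → ℂ) → MT n), GFam U P B Y N G := by
  obtain ⟨N, Δ, hN, hΔ⟩ := exists_den h
  refine ⟨N, fun x => cf Δ x (B x) * P x, ⟨h.pre, h.op, h.ne, h.anB, ?_, h.alg, hN, ?_, ?_, h.gen, ?_⟩⟩
  · intro j a b
    have h1 : (fun x => (cf Δ x (B x) * P x) j a b) = fun x => ∑ c, vt (cfp Δ ⟨j, a, c⟩) x (B x) * P x j c b := by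
      funext x
      rw [Pi.mul_apply, Matrix.mul_apply]
      refine Finset.sum_congr rfl fun c _ => ?_
      rw [vt_cfp]
    rw [h1]
    exact Finset.analyticOnNhd_fun_sum _ fun c _ => (Pool.Agent.Y119.PLM.vt_an h.anB _).mul (h.anP _ _ _)
  · intro x hx
    rw [← mul_assoc, B_cf, hΔ x hx, smul_mul_assoc, one_mul]
  · intro x hx hx0
    have h1 : ∀ j, (B x j).det ≠ 0 := by
      intro j h0
      apply hx0
      rw [← hΔ x hx, Finset.prod_eq_zero (Finset.mem_univ j) h0, zero_mul]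
    obtain ⟨g, hg, hPg⟩ := h.mem x hx h1
    refine ⟨g, hg, ?_⟩
    rw [hPg, ← mul_assoc, cf_B, hΔ x hx, smul_mul_assoc, one_mul]
  · intro g hg T hT x hx
    have h1 := h.inv g hg (sb Δ T) (fun x hx => by rw [v2_sb]; exact hT x hx) x hx
    rw [v2_sb] at h1
    rw [← mul_assoc] at h1
    exact h1

end hyp

section final

variable {X κ : Type} [Fintype X] [DecidableEq X] [Nonempty X] [Fintype κ] [DecidableEq κ] {n : κ → ℕ}

/-- the covering for bounded parameters -/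
theorem cov_exc {U : Set (X → ℂ)} {P B : (X → ℂ) → MT n} {G : Subgroup (MT n)ˣ} (h : Hyp U P B G) (k : ℕ) (ε : ℝ)
    (hε : 0 < ε) : ∃ (D : ℕ) (C T₀ : ℝ), 0 ≤ C ∧ 2 ≤ T₀ ∧
      ∀ (K : Type) [Field K] [NumberField K], Module.finrank ℚ K ≤ k → ∀ (io : K →+* ℂ) (ξ : Fin k → ℂ) (T : ℝ),
        T₀ ≤ T → Cov D ⌊C * T ^ ε⌋₊
          ((fun (s : X → K) j => io (s j)) '' ExcG U P {g | ∃ u ∈ G, (u : MT n) = g} K io k ξ T) := by
  classical
  rcases Nat.eq_zero_or_pos k with rfl | hk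
  · refine ⟨0, 0, 2, le_rfl, le_rfl, fun K _ _ hK => ?_⟩
    have h1 : 0 < Module.finrank ℚ K := Module.finrank_pos
    omega
  obtain ⟨N, Y, hF⟩ := exists_GFam h
  obtain ⟨S⟩ := exists_GD h.pre h.op h.ne (b := en B) (fun i => h.anB i.1 i.2.1 i.2.2)
    (fun i => h.alg i.1 i.2.1 i.2.2)
  obtain ⟨δ, hδ⟩ := Bs_deg S N k
  obtain ⟨D, C, T₀, hC, hT₀, H⟩ := Pool.Agent.Y985.OR.wrap X (Ix n ⊕ X) U (fe Y) hF.pre hF.op hF.ne hF.an_fe hF.reg
    (InnerM U k) (innerM_compact _ _) (innerM_sub _ hk) δ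
    (S.Γ → (Ix n → Fin (k + 1)) × Fin k) ((S.Γ → S.Γ) × Fin (Fintype.card S.Γ)) k
    ((k : ℝ) * (Fintype.card S.Γ : ℝ)) ε hε
  set M : ℕ := (Finset.univ : Finset (Finset S.Γ)).card with hM
  refine ⟨max D (S.D * N).totalDegree, M * C + 1, T₀, by positivity, hT₀, fun K _ _ hK io ξ T hT => ?_⟩
  have hT1 : 1 ≤ T := by linarith
  have hTε : 1 ≤ T ^ ε := Real.one_le_rpow hT1 hε.le
  have hun := Cov.biUnion (Finset.univ : Finset (Finset S.Γ)) (fun Z =>
    (fun (s : X → K) j => io (s j)) ''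
      ExcB U (fe Y) (InnerM U k) K io (Bs S N k ξ Z) ((k : ℝ) * (Fintype.card S.Γ : ℝ)) T) (fun Z _ =>
        H K hK io (Bs S N k ξ Z) (fun ρ i y => hδ ξ Z ρ i y) T hT)
  rw [← hM] at hun
  have hbad : Cov (S.D * N).totalDegree 1 {x : X → ℂ | MvPolynomial.eval x (S.D * N) = 0} :=
    ⟨{S.D * N}, by simp, fun P hP => by
      rw [Finset.mem_singleton.1 hP]
      exact ⟨mul_ne_zero S.D_ne hF.N_ne, le_rfl⟩, fun x hx => ⟨_, Finset.mem_singleton_self _, hx⟩⟩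
  have hall := (hun.mono (le_max_left D (S.D * N).totalDegree) le_rfl (Set.Subset.refl _)).union
    (hbad.mono (le_max_right D (S.D * N).totalDegree) le_rfl (Set.Subset.refl _))
  refine hall.mono le_rfl ?_ ?_
  · refine Nat.le_floor ?_
    push_cast
    have h1 : (⌊C * T ^ ε⌋₊ : ℝ) ≤ C * T ^ ε := Nat.floor_le (by positivity)
    have h2 : (M : ℝ) * (⌊C * T ^ ε⌋₊ : ℝ) ≤ M * (C * T ^ ε) := mul_le_mul_of_nonneg_left h1 (Nat.cast_nonneg _)
    linarith
  · rintro _ ⟨s, hs, rfl⟩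
    rcases exc_sub hF S K io k ξ T hk hT1 hs with h1 | h1
    · exact Or.inr h1
    · left
      obtain ⟨Z, hZ⟩ := Set.mem_iUnion.1 h1
      simp only [Finset.mem_univ, Set.iUnion_true]
      exact Set.mem_iUnion.2 ⟨Z, s, hZ, rfl⟩

/-- few exceptional points -/
def FewG (U : Set (X → ℂ)) (P : (X → ℂ) → MT n) (G : Set (MT n)) : Prop :=
  ∃ (ω : ℝ → ℕ) (T₀ : ℝ), Tendsto ω atTop atTop ∧ Monotone ω ∧ ∀ T, T₀ ≤ T → 0 < ω T ∧
    ∀ (K : Type) [Field K] [NumberField K], Module.finrank ℚ K ≤ ω T → ∀ (io : K →+* ℂ) (ξ : Fin (ω T) → ℂ),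
      Cov ⌊T ^ ((ω T : ℝ)⁻¹)⌋₊ ⌊T ^ ((ω T : ℝ)⁻¹)⌋₊
        ((fun (s : X → K) i => io (s i)) '' ExcG U P G K io (ω T) ξ T) ∧
      (ExcG U P G K io (ω T) ξ T).Finite ∧
      ((ExcG U P G K io (ω T) ξ T).ncard : ℝ) ≤
        T ^ ((ω T : ℝ)⁻¹) * ({x : K | Y120.HtLe K T x}.ncard : ℝ) ^ (Fintype.card X - 1)

theorem few {U : Set (X → ℂ)} {P B : (X → ℂ) → MT n} {G : Subgroup (MT n)ˣ} (h : Hyp U P B G) :
    FewG U P {g | ∃ u ∈ G, (u : MT n) = g} :=
  omega_gen (fun k => Fin k → ℂ)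
    (fun k K _ _ io ξ T => ExcG U P {g | ∃ u ∈ G, (u : MT n) = g} K io k ξ T)
    (fun _ _ _ _ _ _ _ _ hs => hs.1) (fun k ε hε => cov_exc h k ε hε)

end final

end Pool.Agent.E8helper42.GF
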