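import Pool.Agent.Y119.PLM.GReg

/-!
# Regularity for torsors under groups generated by polynomial one-parameter families, up to a polynomial factor
(adapted from `Pool.Agent.Y119.PLM.GReg`)
-/

set_option autoImplicit false
set_option linter.unusedSectionVars false

open Filter Topology Matrix Polynomial

namespace Pool.Agent.E8helper42.GF

open Pool.Agent.Y119.HY Pool.Agent.Y119.PL Pool.Agent.Y890.MV Pool.Agent.Y119.PLM

variable {X κ : Type} [Fintype X] {n : κ → ℕ} {U : Set (X → ℂ)} {Y : (X → ℂ) → MT n}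

/-- **Regularity.** -/
theorem regular_d (hU : IsPreconnected U) (hUo : IsOpen U)
    (hY : ∀ j a b, AnalyticOnNhd ℂ (fun x => Y x j a b) U) {G : Subgroup (MT n)ˣ} (hG : UGen G)
    {d : MvPolynomial X ℂ} (hd : d ≠ 0) (hval : ∀ x ∈ U, MvPolynomial.eval x d ≠ 0 → ∃ g ∈ G,
      Y x = MvPolynomial.eval x d • (g : MT n)) (hsp : ∀ g ∈ G, (g : MT n) ∈ GalT U Y) :
    RegularM U (fun (i : Ix n) x => Y x i.1 i.2.1 i.2.2) := by
  classical
  intro V g P Q R hVo hVne hVU hg hR hQ hPQ hRg
  have hev : ∀ x (P : MvPolynomial (Ix n) (MvPolynomial X ℂ)),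
      evM (fun (i : Ix n) x => Y x i.1 i.2.1 i.2.2) x P = vt P x (Y x) := fun _ _ => rfl
  simp only [hev] at hQ hPQ
  have hVne' := hVne
  obtain ⟨x1, hx1, hd1⟩ : ∃ x ∈ V, MvPolynomial.eval x d ≠ 0 := by
    by_contra hcon
    push Not at hcon
    exact hd (poly_zero hVo hVne _ hcon)
  -- the homogenized relation
  set m := R.natDegree with hm
  set W : MvPolynomial (Ix n) (MvPolynomial X ℂ) :=
    ∑ i ∈ Finset.range (m + 1), MvPolynomial.C (R.coeff i) * P ^ i * Q ^ (m - i) with hWd
  have hWe : ∀ x A, vt W x A = ∑ i ∈ Finset.range (m + 1), MvPolynomial.eval x (R.coeff i) * vt P x A ^ i *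
      vt Q x A ^ (m - i) := by
    intro x A
    simp only [vt, hWd, MvPolynomial.eval₂_sum, MvPolynomial.eval₂_mul, MvPolynomial.eval₂_pow,
      MvPolynomial.eval₂_C]
  have hWV : ∀ x ∈ V, vt W x (Y x) = 0 := by
    intro x hx
    have h1 : vt W x (Y x) = vt Q x (Y x) ^ m * (R.map (MvPolynomial.eval x)).eval (g x) := by
      rw [hWe, eval_map, eval₂_eq_sum_range, Finset.mul_sum]
      refine Finset.sum_congr rfl fun i hi => ?_
      have hi' : i ≤ m := Nat.lt_succ_iff.1 (Finset.mem_range.1 hi)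
      have h4 : vt Q x (Y x) ^ m = vt Q x (Y x) ^ i * vt Q x (Y x) ^ (m - i) := by
        rw [← pow_add]; congr 1; omega
      rw [h4, ← hPQ x hx]
      ring
    rw [h1, hRg x hx, mul_zero]
  have hW : IsRelT U Y W := eq_on hU (vt_an hY W) hVo hVne' hVU hWV
  -- the set of good group elements
  let K : MT n → MvPolynomial (Ix n) (MvPolynomial X ℂ) := fun h => sgt h P * Q - P * sgt h Q
  have hKe : ∀ h x A, vt (K h) x A = vt P x (A * h) * vt Q x A - vt P x A * vt Q x (A * h) := by
    intro h x A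
    have h1 : vt (K h) x A = vt (sgt h P) x A * vt Q x A - vt P x A * vt (sgt h Q) x A := by
      simp only [K, vt, sub_eq_add_neg, MvPolynomial.eval₂_add, MvPolynomial.eval₂_mul, MvPolynomial.eval₂_neg]
    rw [h1, vt_sgt, vt_sgt]
  let 𝒮 : Submonoid (MT n)ˣ :=
    { carrier := {h | h ∈ G ∧ IsRelT U Y (K h)}
      mul_mem' := by
        rintro h h' ⟨hh, hhK⟩ ⟨hh', hhK'⟩
        refine ⟨mul_mem hh hh', ?_⟩
        have h1 : ∀ x ∈ U, vt P x (Y x * h * h') * vt Q x (Y x * h) - vt P x (Y x * h) * vt Q x (Y x * h * h') = 0 := by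
          intro x hx
          rw [← hKe]
          exact hsp h hh (K h') hhK' x hx
        have h2 : ∀ x ∈ U, vt P x (Y x * h) * vt Q x (Y x) - vt P x (Y x) * vt Q x (Y x * h) = 0 := by
          intro x hx
          rw [← hKe]
          exact hhK x hx
        have h3 : ∀ x ∈ U, vt (sgt h Q) x (Y x) * vt (K ((h * h' : (MT n)ˣ) : MT n)) x (Y x) = 0 := by
          intro x hx
          rw [vt_sgt, hKe, Units.val_mul, ← mul_assoc]
          linear_combination (vt Q x (Y x)) * h1 x hx + (vt Q x (Y x * h * h')) * h2 x hx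
        have h3' : ∀ᶠ x in nhdsSet U, vt (sgt h Q) x (Y x) * vt (K ((h * h' : (MT n)ˣ) : MT n)) x (Y x) = 0 := by
          rw [hUo.nhdsSet_eq, Filter.eventually_principal]
          exact h3
        rcases zero_or_zero (vt_an hY (sgt h Q)) (vt_an hY (K ((h * h' : (MT n)ˣ) : MT n))) hU h3' with h4 | h4
        · exfalso
          have h7 := hsp h⁻¹ (inv_mem hh) (sgt h Q) h4 x1 (hVU hx1)
          rw [vt_sgt, mul_assoc, Units.inv_mul, mul_one] at h7
          exact hQ x1 hx1 h7
        · exact h4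
      one_mem' := by
        refine ⟨one_mem _, fun x _ => ?_⟩
        rw [hKe, Units.val_one, mul_one]
        ring }
  -- the curves are good
  have htv : ∀ h : (MT n)ˣ, (∃ M : (j : κ) → Matrix (Fin (n j)) (Fin (n j)) ℂ[X],
      (∀ c : ℂ, ∃ k ∈ G, (k : MT n) = fun j => (M j).map (Polynomial.eval c)) ∧
      (fun j => (M j).map (Polynomial.eval 0) : MT n) = 1 ∧ (fun j => (M j).map (Polynomial.eval 1) : MT n) = h) →
      h ∈ 𝒮 := by
    rintro h ⟨M, hM, hM0, hM1⟩
    refine ⟨?_, ?_⟩
    · obtain ⟨k, hk, hk1⟩ := hM 1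
      have : k = h := Units.ext (hk1.trans hM1)
      rwa [← this]
    obtain ⟨i0, hi0⟩ : ∃ i, R.coeff i ≠ 0 := by
      by_contra hcon
      push Not at hcon
      exact hR (Polynomial.ext fun i => by rw [hcon i, coeff_zero])
    have hgood : ∀ x ∈ V, MvPolynomial.eval x (R.coeff i0) ≠ 0 → vt (K h) x (Y x) = 0 := by
      intro x hx hx0
      set A : (k : κ) → Matrix (Fin (n k)) (Fin (n k)) ℂ[X] := fun k => (Y x k).map C * M k with hA
      have hAe : ∀ c, (fun k => (A k).map (Polynomial.eval c)) = Y x * (fun j => (M j).map (Polynomial.eval c)) := by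
        intro c
        funext k
        rw [Pi.mul_apply, hA]
        rw [map_mul_eval, map_C_eval]
      have he : ∀ (P : MvPolynomial (Ix n) (MvPolynomial X ℂ)) c, (vtp P x A).eval c =
          vt P x (Y x * (fun j => (M j).map (Polynomial.eval c))) := by
        intro P c
        rw [eval_vtp, hAe]
      have hRx : R.map (MvPolynomial.eval x) ≠ 0 := by
        intro h
        apply hx0
        have := congrArg (fun p => Polynomial.coeff p i0) h
        simpa using this
      have h1 := two_poly (A := vtp P x A) (B := vtp Q x A) hRx (m := m) Polynomial.natDegree_map_le (fun c => by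
          rw [he, he]
          obtain ⟨k, hk, hkc⟩ := hM c
          have h2 := hsp k hk W hW x (hVU hx)
          rw [hkc, hWe] at h2
          rw [← h2]
          refine Finset.sum_congr rfl fun i _ => ?_
          rw [coeff_map]) 1
      rw [he, he, he, he, hM0, hM1, mul_one] at h1
      rw [hKe, h1, sub_self]
    obtain ⟨x0, hx0V, hx0⟩ : ∃ x ∈ V, MvPolynomial.eval x (R.coeff i0) ≠ 0 := by
      by_contra hcon
      push Not at hcon
      exact hi0 (poly_zero hVo hVne' _ hcon)
    have h1 : ∀ᶠ x in 𝓝 x0, MvPolynomial.eval x (R.coeff i0) ≠ 0 := by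
      have h2 : AnalyticAt ℂ (fun x => MvPolynomial.eval x (R.coeff i0)) x0 :=
        (AnalyticOnNhd.eval_mvPolynomial (R.coeff i0)) x0 trivial
      exact h2.continuousAt.eventually_ne hx0
    obtain ⟨O, hO1, hO2, hO3⟩ := mem_nhds_iff.1 (h1.and (hVo.mem_nhds hx0V))
    exact eq_on hU (vt_an hY _) hO2 ⟨x0, hO3⟩ (fun x hx => hVU (hO1 hx).2) fun x hx => hgood x (hO1 hx).2 (hO1 hx).1
  have hall : ∀ h ∈ G, IsRelT U Y (K (h : MT n)) := by
    intro h hh
    have h1 : Submonoid.closure _ ≤ 𝒮 := (Submonoid.closure_le).2 htv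
    exact (h1 (hG h hh)).2
  -- evaluation at a constant point
  let pc : MvPolynomial (Ix n) (MvPolynomial X ℂ) → MvPolynomial X ℂ := fun P =>
    MvPolynomial.eval₂ (RingHom.id (MvPolynomial X ℂ))
      (fun i : Ix n => MvPolynomial.C ((MvPolynomial.eval x1 d)⁻¹ * Y x1 i.1 i.2.1 i.2.2) * d) P
  have hpc : ∀ P x, MvPolynomial.eval x (pc P) =
      vt P x ((MvPolynomial.eval x d * (MvPolynomial.eval x1 d)⁻¹) • Y x1) := by
    intro P x
    simp only [pc, vt]
    rw [MvPolynomial.hom_eval₂]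
    have h1 : (MvPolynomial.eval x).comp (RingHom.id (MvPolynomial X ℂ)) = MvPolynomial.eval x := RingHom.comp_id _
    rw [h1]
    congr 1
    funext i
    rw [map_mul, MvPolynomial.eval_C, Pi.smul_apply, Matrix.smul_apply, smul_eq_mul]
    ring
  refine ⟨pc P * d, pc Q * d, ?_, fun x hx => ?_⟩
  · refine mul_ne_zero ?_ hd
    intro h
    apply hQ x1 hx1
    have h1 := hpc Q x1
    rw [h, map_zero, mul_inv_cancel₀ hd1, one_smul] at h1
    exact h1.symm
  · by_cases hdx : MvPolynomial.eval x d = 0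
    · rw [map_mul, map_mul, hdx, mul_zero, mul_zero, zero_mul]
    obtain ⟨g1, hg1, hY1⟩ := hval x1 (hVU hx1) hd1
    obtain ⟨gx, hgx, hYx⟩ := hval x (hVU hx) hdx
    have hZY : Y x * ((gx⁻¹ * g1 : (MT n)ˣ) : MT n) =
        (MvPolynomial.eval x d * (MvPolynomial.eval x1 d)⁻¹) • Y x1 := by
      rw [hYx, hY1, smul_smul, mul_assoc, inv_mul_cancel₀ hd1, mul_one, Units.val_mul, smul_mul_assoc,
        Units.mul_inv_cancel_left]
    have h5 := hall _ (mul_mem (inv_mem hgx) hg1) x (hVU hx)
    rw [hKe, hZY, ← hPQ x hx] at h5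
    rw [map_mul, map_mul, hpc, hpc]
    have h7 : vt Q x (Y x) * (vt Q x ((MvPolynomial.eval x d * (MvPolynomial.eval x1 d)⁻¹) • Y x1) * g x -
        vt P x ((MvPolynomial.eval x d * (MvPolynomial.eval x1 d)⁻¹) • Y x1)) = 0 := by linear_combination -h5
    have h8 := sub_eq_zero.1 ((mul_eq_zero.1 h7).resolve_left (hQ x hx))
    rw [← h8]
    ring

/-- the coordinates may be added to the functions -/
theorem regular_coord {σ : Type} {f : σ → (X → ℂ) → ℂ} (h : RegularM U f) :
    RegularM U (Sum.elim f (fun (a : X) (x : X → ℂ) => x a)) := by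
  intro V g P Q R hVo hVne hVU hg hR hQ hPQ hRg
  let φ : MvPolynomial (σ ⊕ X) (MvPolynomial X ℂ) →+* MvPolynomial σ (MvPolynomial X ℂ) :=
    MvPolynomial.eval₂Hom MvPolynomial.C (Sum.elim MvPolynomial.X fun a => MvPolynomial.C (MvPolynomial.X a))
  have hφ : ∀ x P, evM f x (φ P) = evM (Sum.elim f (fun (a : X) (x : X → ℂ) => x a)) x P := by
    intro x P
    have h1 : (MvPolynomial.eval₂Hom (MvPolynomial.eval x) (fun i => f i x)).comp φ =
        MvPolynomial.eval₂Hom (MvPolynomial.eval x) (fun i => (Sum.elim f (fun (a : X) (x : X → ℂ) => x a)) i x) := by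
      apply MvPolynomial.ringHom_ext
      · intro a
        simp [φ]
      · rintro (i | a)
        · simp [φ]
        · simp [φ]
    exact RingHom.congr_fun h1 P
  exact h V g (φ P) (φ Q) R hVo hVne hVU hg hR (fun x hx => by rw [hφ]; exact hQ x hx)
    (fun x hx => by rw [hφ, hφ]; exact hPQ x hx) hRg

end Pool.Agent.E8helper42.GF
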