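import Pool.Agent.E8helper42.GF.Main
import Pool.Agent.H463R3.PSLn

/-!
# Products of special linear groups are generated by polynomial curves
-/

set_option autoImplicit false
set_option linter.unusedSectionVars false

open Matrix Polynomial

namespace Pool.Agent.E8helper42.GF

open Pool.Agent.Y119.PLM (MT Ix UGen)

variable {κ : Type} {n : κ → ℕ}

/-- the tuples of matrices of determinant one -/
def SLT (n : κ → ℕ) : Subgroup (MT n)ˣ where
  carrier := {u | ∀ j, ((u : MT n) j).det = 1}
  mul_mem' := by
    intro u v hu hv j
    rw [Units.val_mul, Pi.mul_apply, det_mul, hu j, hv j, mul_one]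
  one_mem' := by
    intro j
    rw [Units.val_one, Pi.one_apply, det_one]
  inv_mem' := by
    intro u hu j
    have h1 : ((u * u⁻¹ : (MT n)ˣ) : MT n) j = 1 := by
      rw [mul_inv_cancel]
      rfl
    rw [Units.val_mul, Pi.mul_apply] at h1
    have h2 := congrArg Matrix.det h1
    rw [det_mul, hu j, one_mul, det_one] at h2
    exact h2

/-- the units attached to tuples of matrices of determinant one -/
noncomputable def toU (A : MT n) (hA : ∀ j, (A j).det = 1) : (MT n)ˣ :=
  ⟨A, fun j => (A j)⁻¹, by
    funext j
    rw [Pi.mul_apply, Pi.one_apply]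
    exact mul_nonsing_inv _ (by rw [hA j]; exact isUnit_one), by
    funext j
    rw [Pi.mul_apply, Pi.one_apply]
    exact nonsing_inv_mul _ (by rw [hA j]; exact isUnit_one)⟩

lemma toU_mem (A : MT n) (hA : ∀ j, (A j).det = 1) : toU A hA ∈ SLT n := hA

variable [DecidableEq κ]

/-- one factor -/
lemma det_single (j : κ) (A : SpecialLinearGroup (Fin (n j)) ℂ) (i : κ) :
    ((Pi.mulSingle j (A : Matrix (Fin (n j)) (Fin (n j)) ℂ) : MT n) i).det = 1 := by
  by_cases h : i = j
  · subst h
    rw [Pi.mulSingle_eq_same]
    exact A.2
  · rw [Pi.mulSingle_eq_of_ne h, det_one]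

/-- the set of generators -/
def Gen (G : Subgroup (MT n)ˣ) : Set (MT n)ˣ := {h : (MT n)ˣ | ∃ M : (j : κ) → Matrix (Fin (n j)) (Fin (n j)) ℂ[X],
    (∀ c : ℂ, ∃ k ∈ G, (k : MT n) = fun j => (M j).map (Polynomial.eval c)) ∧
    (fun j => (M j).map (Polynomial.eval 0) : MT n) = 1 ∧ (fun j => (M j).map (Polynomial.eval 1) : MT n) = h}

lemma single_mul (j : κ) (A B : Matrix (Fin (n j)) (Fin (n j)) ℂ) :
    (Pi.mulSingle j (A * B) : MT n) = Pi.mulSingle j A * Pi.mulSingle j B :=
  Pi.mulSingle_mul (f := fun j => Matrix (Fin (n j)) (Fin (n j)) ℂ) j A B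

lemma single_mem (j : κ) (A : SpecialLinearGroup (Fin (n j)) ℂ) :
    toU (Pi.mulSingle j (A : Matrix (Fin (n j)) (Fin (n j)) ℂ)) (det_single j A) ∈
      Submonoid.closure (Gen (SLT n)) := by
  classical
  rcases subsingleton_or_nontrivial (Fin (n j)) with hs | hn
  · have h1 : (A : Matrix (Fin (n j)) (Fin (n j)) ℂ) = 1 := by
      have h2 := A.2
      ext a b
      have : Nonempty (Fin (n j)) := ⟨a⟩
      have hab : a = b := Subsingleton.elim _ _
      subst hab
      rw [Matrix.one_apply_eq]
      have hu : Unique (Fin (n j)) := uniqueOfSubsingleton a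
      rw [det_unique] at h2
      have : (default : Fin (n j)) = a := Subsingleton.elim _ _
      rw [this] at h2
      exact h2
    have h2 : toU (Pi.mulSingle j (A : Matrix (Fin (n j)) (Fin (n j)) ℂ) : MT n) (det_single j A) = 1 := by
      apply Units.ext
      change (Pi.mulSingle j (A : Matrix (Fin (n j)) (Fin (n j)) ℂ) : MT n) = 1
      rw [h1, Pi.mulSingle_one]
    rw [h2]
    exact one_mem _
  · refine Pool.Agent.H463R3.PSLn.transvection_induction
      (fun A => toU (Pi.mulSingle j (A : Matrix (Fin (n j)) (Fin (n j)) ℂ)) (det_single j A) ∈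
        Submonoid.closure (Gen (SLT n))) ?_ ?_ A
    · intro a b hab c
      refine Submonoid.subset_closure ?_
      refine ⟨Pi.mulSingle j (Matrix.transvection a b (Polynomial.C c * Polynomial.X)), fun z => ?_, ?_, ?_⟩
      · refine ⟨toU (Pi.mulSingle j ((SpecialLinearGroup.transvection hab (c * z) :
          SpecialLinearGroup (Fin (n j)) ℂ) : Matrix (Fin (n j)) (Fin (n j)) ℂ)) (det_single j _),
          toU_mem _ _, ?_⟩
        funext i
        by_cases h : i = j
        · subst h
          change (Pi.mulSingle i _ : MT n) i = _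
          rw [Pi.mulSingle_eq_same, Pi.mulSingle_eq_same]
          ext u v
          rw [Matrix.map_apply]
          simp only [SpecialLinearGroup.transvection_coe, Matrix.transvection, Matrix.add_apply, Matrix.one_apply,
            Matrix.single_apply]
          split_ifs <;> simp
        · change (Pi.mulSingle j _ : MT n) i = _
          rw [Pi.mulSingle_eq_of_ne h, Pi.mulSingle_eq_of_ne h]
          ext u v
          rw [Matrix.map_apply, Matrix.one_apply, Matrix.one_apply]
          split_ifs <;> simp
      · funext i
        by_cases h : i = j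
        · subst h
          rw [Pi.mulSingle_eq_same, Pi.one_apply]
          ext u v
          rw [Matrix.map_apply]
          simp only [Matrix.transvection, Matrix.add_apply, Matrix.one_apply, Matrix.single_apply]
          split_ifs <;> simp
        · rw [Pi.mulSingle_eq_of_ne h, Pi.one_apply]
          ext u v
          rw [Matrix.map_apply, Matrix.one_apply, Matrix.one_apply]
          split_ifs <;> simp
      · funext i
        change _ = (Pi.mulSingle j _ : MT n) i
        by_cases h : i = j
        · subst h
          rw [Pi.mulSingle_eq_same, Pi.mulSingle_eq_same]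
          ext u v
          rw [Matrix.map_apply]
          simp only [SpecialLinearGroup.transvection_coe, Matrix.transvection, Matrix.add_apply, Matrix.one_apply,
            Matrix.single_apply]
          split_ifs <;> simp
        · rw [Pi.mulSingle_eq_of_ne h, Pi.mulSingle_eq_of_ne h]
          ext u v
          rw [Matrix.map_apply, Matrix.one_apply, Matrix.one_apply]
          split_ifs <;> simp
    · intro A B hA hB
      have h1 : toU (Pi.mulSingle j ((A * B : SpecialLinearGroup (Fin (n j)) ℂ) :
          Matrix (Fin (n j)) (Fin (n j)) ℂ)) (det_single j (A * B)) =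
          toU (Pi.mulSingle j (A : Matrix (Fin (n j)) (Fin (n j)) ℂ) : MT n) (det_single j A) *
            toU (Pi.mulSingle j (B : Matrix (Fin (n j)) (Fin (n j)) ℂ) : MT n) (det_single j B) := by
        apply Units.ext
        change (Pi.mulSingle j ((A * B : SpecialLinearGroup (Fin (n j)) ℂ) :
          Matrix (Fin (n j)) (Fin (n j)) ℂ) : MT n) = Pi.mulSingle j (A : Matrix (Fin (n j)) (Fin (n j)) ℂ) *
            Pi.mulSingle j (B : Matrix (Fin (n j)) (Fin (n j)) ℂ)
        exact single_mul j A.1 B.1
      rw [h1]
      exact mul_mem hA hB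

/-- **Generation.** -/
theorem ugen_SLT [Fintype κ] : UGen (SLT n) := by
  classical
  have key : ∀ (s : Finset κ) (g : (MT n)ˣ), g ∈ SLT n → (∀ j, j ∉ s → (g : MT n) j = 1) →
      g ∈ Submonoid.closure (Gen (SLT n)) := by
    intro s
    induction s using Finset.induction_on with
    | empty =>
      intro g hg h1
      have : g = 1 := Units.ext (funext fun j => h1 j (Finset.notMem_empty j))
      rw [this]
      exact one_mem _
    | insert j s hj ih =>
      intro g hg h1
      let A : SpecialLinearGroup (Fin (n j)) ℂ := ⟨(g : MT n) j, hg j⟩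
      set u := toU (Pi.mulSingle j (A : Matrix (Fin (n j)) (Fin (n j)) ℂ) : MT n) (det_single j A) with hu
      have h2 : g = u * (u⁻¹ * g) := by rw [mul_inv_cancel_left]
      rw [h2]
      refine mul_mem (single_mem j A) (ih _ (mul_mem (inv_mem (toU_mem _ _)) hg) fun i hi => ?_)
      have h3 : ∀ i, ((u⁻¹ : (MT n)ˣ) : MT n) i * (u : MT n) i = 1 := by
        intro i
        have : ((u⁻¹ * u : (MT n)ˣ) : MT n) i = 1 := by
          rw [inv_mul_cancel]
          rfl
        rwa [Units.val_mul, Pi.mul_apply] at this
      rw [Units.val_mul, Pi.mul_apply]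
      by_cases hij : i = j
      · subst hij
        have h4 : (u : MT n) i = (g : MT n) i := by
          change (Pi.mulSingle i (A : Matrix (Fin (n i)) (Fin (n i)) ℂ) : MT n) i = _
          rw [Pi.mulSingle_eq_same]
        rw [← h4]
        exact h3 i
      · have h4 : (g : MT n) i = 1 := h1 i (by simp [hij, hi])
        have h5 : (u : MT n) i = 1 := by
          change (Pi.mulSingle j (A : Matrix (Fin (n j)) (Fin (n j)) ℂ) : MT n) i = _
          rw [Pi.mulSingle_eq_of_ne hij]
        have h6 := h3 i
        rw [h5, mul_one] at h6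
        rw [h4, mul_one]
        exact h6
  intro g hg
  exact key Finset.univ g hg fun j hj => absurd (Finset.mem_univ j) hj

end Pool.Agent.E8helper42.GF
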