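import Pool.Agent.E8helper42.GF.GalE
import Pool.Agent.E8helper42.GF.Grp
import Pool.Agent.E8helper42.GF.Reg
import Pool.Agent.Y985.OR.Wrap

/-!
# The systems of relations attached to a relation, by means of the Galois group of the algebraic section
-/

set_option autoImplicit false
set_option linter.unusedSectionVars false

namespace Pool.Agent.E8helper42.GF

open Pool.Agent.Y890.MV
open Pool.Agent.Y119.PLM (MT Ix vt GalT pe UGen sum_expM tl pe_tl IsRelT)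

/-! ### polynomials -/

section poly

variable {X σ : Type} [Fintype X]

/-- polynomials in two groups of variables -/
lemma eval_symm (T : MvPolynomial σ (MvPolynomial X ℂ)) (z : σ → ℂ) (x : X → ℂ) :
    MvPolynomial.eval (Sum.elim z x) ((MvPolynomial.sumAlgEquiv ℂ σ X).symm T) =
      MvPolynomial.eval₂ (MvPolynomial.eval x) z T := by
  have h1 := ev_sum (f := fun (i : σ) (_ : X → ℂ) => z i) (σ := σ) (I := σ) id
    ((MvPolynomial.sumAlgEquiv ℂ σ X).symm T) x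
  rw [MvPolynomial.rename_id, AlgHom.id_apply, AlgEquiv.apply_symm_apply] at h1
  exact h1.symm

/-- invariant polynomials -/
lemma exists_inv {A R Γ : Type} [CommRing A] [CommRing R] [Algebra A R] [Group Γ] (s : Γ →* (R ≃ₐ[A] R))
    (hinv : ∀ z : R, (∀ g, s g z = z) → ∃ a : A, algebraMap A R a = z) (z : MvPolynomial σ R)
    (hz : ∀ g, MvPolynomial.map ((s g : R ≃ₐ[A] R) : R →+* R) z = z) :
    ∃ T : MvPolynomial σ A, MvPolynomial.map (algebraMap A R) T = z := by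
  classical
  have h1 : ∀ m, ∃ a : A, algebraMap A R a = z.coeff m := by
    intro m
    refine hinv _ fun g => ?_
    have h2 := congrArg (MvPolynomial.coeff m) (hz g)
    rw [MvPolynomial.coeff_map] at h2
    exact h2
  choose a ha using h1
  refine ⟨∑ m ∈ z.support, MvPolynomial.monomial m (a m), ?_⟩
  rw [map_sum]
  simp only [MvPolynomial.map_monomial, ha]
  exact MvPolynomial.support_sum_monomial_coeff z

end poly

/-! ### the data -/

section data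

variable {X κ : Type} [Fintype X] {n : κ → ℕ}

/-- families in torsors with an algebraic section: `N P = B Y`, and `Y` is in `N G` -/
structure GFam (U : Set (X → ℂ)) (P B Y : (X → ℂ) → MT n) (N : MvPolynomial X ℂ) (G : Subgroup (MT n)ˣ) : Prop where
  pre : IsPreconnected U
  op : IsOpen U
  ne : U.Nonempty
  anB : ∀ j a b, AnalyticOnNhd ℂ (fun x => B x j a b) U
  anY : ∀ j a b, AnalyticOnNhd ℂ (fun x => Y x j a b) U
  alg : ∀ j a b, AlgF U (fun x => B x j a b)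
  N_ne : N ≠ 0
  BY : ∀ x ∈ U, MvPolynomial.eval x N • P x = B x * Y x
  mem : ∀ x ∈ U, MvPolynomial.eval x N ≠ 0 → ∃ g ∈ G, Y x = MvPolynomial.eval x N • (g : MT n)
  gen : UGen G
  gal : ∀ g ∈ G, (g : MT n) ∈ GalT U Y

/-- the entries -/
def en (B : (X → ℂ) → MT n) : Ix n → (X → ℂ) → ℂ := fun i x => B x i.1 i.2.1 i.2.2

/-- the functions: the entries of `Y` and the coordinates -/
def fe (Y : (X → ℂ) → MT n) : Ix n ⊕ X → (X → ℂ) → ℂ := Sum.elim (en Y) fun a x => x a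

variable {U : Set (X → ℂ)} {P B Y : (X → ℂ) → MT n} {N : MvPolynomial X ℂ} {G : Subgroup (MT n)ˣ}

lemma GFam.reg (h : GFam U P B Y N G) : RegularM U (fe Y) :=
  regular_coord (regular_d h.pre h.op h.anY h.gen h.N_ne h.mem h.gal)

lemma GFam.an_fe (h : GFam U P B Y N G) (o : Ix n ⊕ X) : AnalyticOnNhd ℂ (fe Y o) U := by
  rcases o with i | a
  · exact h.anY i.1 i.2.1 i.2.2
  · exact (ContinuousLinearMap.proj (R := ℂ) (φ := fun _ : X => ℂ) a).analyticOnNhd U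

end data

section sys

variable {X κ : Type} [Fintype X] [Fintype κ] [DecidableEq κ] {n : κ → ℕ} {U : Set (X → ℂ)} {B : (X → ℂ) → MT n}
  (S : GD U (en B)) (N : MvPolynomial X ℂ) (k : ℕ)

/-- the generic linear forms -/
noncomputable def lin (i : Ix n) : MvPolynomial (Ix n) S.R :=
  ∑ c, MvPolynomial.C (S.β ⟨i.1, i.2.1, c⟩) * MvPolynomial.X ⟨i.1, c, i.2.2⟩

/-- the monomials in the linear forms, homogenized -/
noncomputable def mono (e : Ix n → Fin (k + 1)) : MvPolynomial (Ix n) S.R :=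
  MvPolynomial.C (algebraMap (MvPolynomial X ℂ) S.R (S.d₀ * N)) ^ (k * Fintype.card (Ix n) - ∑ i, (e i : ℕ)) *
    ∏ i, lin S i ^ (e i : ℕ)

/-- the evaluation -/
noncomputable def evR {R : Type} [CommRing R] (e : R →+* ℂ) (A : MT n) : MvPolynomial (Ix n) R →+* ℂ :=
  MvPolynomial.eval₂Hom e (fun i => A i.1 i.2.1 i.2.2)

/-- the matrices -/
noncomputable def bm (e : S.R →+* ℂ) : MT n := fun j => Matrix.of fun a b => e (S.β ⟨j, a, b⟩)

lemma evR_lin (e : S.R →+* ℂ) (A : MT n) (i : Ix n) : evR e A (lin S i) = (bm S e * A) i.1 i.2.1 i.2.2 := by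
  unfold lin evR
  rw [map_sum, Pi.mul_apply, Matrix.mul_apply]
  refine Finset.sum_congr rfl fun c _ => ?_
  rw [map_mul, MvPolynomial.eval₂Hom_C, MvPolynomial.eval₂Hom_X']
  rfl

lemma sum_le (e : Ix n → Fin (k + 1)) : ∑ i, (e i : ℕ) ≤ k * Fintype.card (Ix n) := by
  have h1 : ∑ i, (e i : ℕ) ≤ ∑ _i : Ix n, k := Finset.sum_le_sum fun i _ => Nat.lt_succ_iff.1 (e i).2
  rw [Finset.sum_const, Finset.card_univ, smul_eq_mul, mul_comm] at h1
  exact h1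

lemma evR_mono (e : S.R →+* ℂ) (A : MT n) {q : ℂ} (hq : q ≠ 0)
    (he : e (algebraMap (MvPolynomial X ℂ) S.R (S.d₀ * N)) = q) (l : Ix n → Fin (k + 1)) :
    evR e A (mono S N k l) = q ^ (k * Fintype.card (Ix n)) *
      ∏ i : Ix n, ((q⁻¹ • bm S e) * A) i.1 i.2.1 i.2.2 ^ (l i : ℕ) := by
  unfold mono
  rw [map_mul, map_pow, map_prod]
  have h1 : evR e A (MvPolynomial.C (algebraMap (MvPolynomial X ℂ) S.R (S.d₀ * N))) = q := by
    rw [← he]
    exact MvPolynomial.eval₂Hom_C _ _ _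
  have h2 : ∏ i : Ix n, ((q⁻¹ • bm S e) * A) i.1 i.2.1 i.2.2 ^ (l i : ℕ) =
      (q⁻¹) ^ (∑ i, (l i : ℕ)) * ∏ i : Ix n, ((bm S e) * A) i.1 i.2.1 i.2.2 ^ (l i : ℕ) := by
    rw [← Finset.prod_pow_eq_pow_sum, ← Finset.prod_mul_distrib]
    refine Finset.prod_congr rfl fun i _ => ?_
    rw [← mul_pow, smul_mul_assoc, Pi.smul_apply, Matrix.smul_apply, smul_eq_mul]
  rw [h1, h2]
  have h3 : q ^ (k * Fintype.card (Ix n)) = q ^ (k * Fintype.card (Ix n) - ∑ i, (l i : ℕ)) * q ^ (∑ i, (l i : ℕ)) := by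
    rw [← pow_add, Nat.sub_add_cancel (sum_le k l)]
  rw [h3]
  have h4 : q ^ (∑ i, (l i : ℕ)) * (q⁻¹) ^ (∑ i, (l i : ℕ)) = 1 := by
    rw [← mul_pow, mul_inv_cancel₀ hq, one_pow]
  calc q ^ (k * Fintype.card (Ix n) - ∑ i, (l i : ℕ)) * ∏ i, evR e A (lin S i ^ (l i : ℕ))
      = q ^ (k * Fintype.card (Ix n) - ∑ i, (l i : ℕ)) * (q ^ (∑ i, (l i : ℕ)) * (q⁻¹) ^ (∑ i, (l i : ℕ))) *
          ∏ i : Ix n, ((bm S e) * A) i.1 i.2.1 i.2.2 ^ (l i : ℕ) := by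
        rw [h4, mul_one]
        congr 1
        refine Finset.prod_congr rfl fun i _ => ?_
        rw [map_pow, evR_lin]
    _ = _ := by ring

/-- the sum over the exponents -/
lemma sum_q {K : Type} [Field K] (io : K →+* ℂ) (ξ : Fin k → ℂ) {F : MvPolynomial (Ix n) ℂ}
    (hdeg : ∀ y, F.degreeOf y ≤ k) (c : (Ix n → Fin (k + 1)) × Fin k → K)
    (hc : ∀ e, F.coeff (Finsupp.equivFunOnFinite.symm fun y => (e y : ℕ)) = ∑ i, ξ i * io (c (e, i)))
    (e : S.R →+* ℂ) (A : MT n) {q : ℂ} (hq : q ≠ 0)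
    (he : e (algebraMap (MvPolynomial X ℂ) S.R (S.d₀ * N)) = q) :
    ∑ l, io (c l) * ξ l.2 * evR e A (mono S N k l.1) =
      q ^ (k * Fintype.card (Ix n)) * pe F ((q⁻¹ • bm S e) * A) := by
  classical
  have h1 := sum_expM hdeg (fun i : Ix n => ((q⁻¹ • bm S e) * A) i.1 i.2.1 i.2.2)
  unfold pe
  rw [← h1, Fintype.sum_prod_type, Finset.mul_sum]
  refine Finset.sum_congr rfl fun l _ => ?_
  rw [hc, Finset.sum_mul, Finset.mul_sum]
  refine Finset.sum_congr rfl fun i _ => ?_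
  rw [evR_mono S N k e A hq he]
  ring

/-- products of conjugates -/
noncomputable def pr (ε : S.Γ → S.Γ) (p : S.Γ → Ix n → Fin (k + 1)) : MvPolynomial (Ix n) S.R :=
  ∏ g, MvPolynomial.map ((S.σ (ε g) : S.R ≃ₐ[MvPolynomial X ℂ] S.R) : S.R →+* S.R) (mono S N k (p g))

/-- traces -/
noncomputable def trc (j : ℕ) (ε : S.Γ → S.Γ) (p : S.Γ → Ix n → Fin (k + 1)) : MvPolynomial (Ix n) S.R :=
  ∑ h, MvPolynomial.map ((S.σ h : S.R ≃ₐ[MvPolynomial X ℂ] S.R) : S.R →+* S.R)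
    (MvPolynomial.C S.θ ^ j * pr S N k ε p)

lemma map_map_sig (g h : S.Γ) (z : MvPolynomial (Ix n) S.R) :
    MvPolynomial.map ((S.σ g : S.R ≃ₐ[MvPolynomial X ℂ] S.R) : S.R →+* S.R)
      (MvPolynomial.map ((S.σ h : S.R ≃ₐ[MvPolynomial X ℂ] S.R) : S.R →+* S.R) z) =
    MvPolynomial.map ((S.σ (g * h) : S.R ≃ₐ[MvPolynomial X ℂ] S.R) : S.R →+* S.R) z := by
  rw [MvPolynomial.map_map]
  congr 1
  rw [map_mul]
  rfl

lemma exists_T (j : ℕ) (ε : S.Γ → S.Γ) (p : S.Γ → Ix n → Fin (k + 1)) :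
    ∃ T : MvPolynomial (Ix n) (MvPolynomial X ℂ),
      MvPolynomial.map (algebraMap (MvPolynomial X ℂ) S.R) T = trc S N k j ε p := by
  refine exists_inv S.σ S.invar _ fun g => ?_
  unfold trc
  rw [map_sum]
  simp only [map_map_sig]
  exact Fintype.sum_equiv (Equiv.mulLeft g) _ _ fun h => rfl

/-- the traces as polynomials over `ℂ[x]` -/
noncomputable def TT (j : ℕ) (ε : S.Γ → S.Γ) (p : S.Γ → Ix n → Fin (k + 1)) :
    MvPolynomial (Ix n) (MvPolynomial X ℂ) := (exists_T S N k j ε p).choose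

lemma TT_spec (j : ℕ) (ε : S.Γ → S.Γ) (p : S.Γ → Ix n → Fin (k + 1)) :
    MvPolynomial.map (algebraMap (MvPolynomial X ℂ) S.R) (TT S N k j ε p) = trc S N k j ε p :=
  (exists_T S N k j ε p).choose_spec

/-- the place after an automorphism -/
noncomputable def pl (e : S.R →+* ℂ) (g : S.Γ) : S.R →+* ℂ :=
  e.comp ((S.σ g : S.R ≃ₐ[MvPolynomial X ℂ] S.R) : S.R →+* S.R)

lemma pl_alg {e : S.R →+* ℂ} {x : X → ℂ} (he : ∀ a, e (algebraMap (MvPolynomial X ℂ) S.R a) = MvPolynomial.eval x a)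
    (g : S.Γ) (a : MvPolynomial X ℂ) : pl S e g (algebraMap (MvPolynomial X ℂ) S.R a) = MvPolynomial.eval x a := by
  rw [← he]
  change e (S.σ g (algebraMap (MvPolynomial X ℂ) S.R a)) = _
  rw [AlgEquiv.commutes]

lemma evR_map (e : S.R →+* ℂ) (A : MT n) (g : S.Γ) (z : MvPolynomial (Ix n) S.R) :
    evR e A (MvPolynomial.map ((S.σ g : S.R ≃ₐ[MvPolynomial X ℂ] S.R) : S.R →+* S.R) z) = evR (pl S e g) A z := by
  unfold evR pl
  rw [MvPolynomial.coe_eval₂Hom, MvPolynomial.coe_eval₂Hom, MvPolynomial.eval₂_map]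

lemma pl_pl (e : S.R →+* ℂ) (g h : S.Γ) : pl S (pl S e g) h = pl S e (g * h) := by
  unfold pl
  rw [RingHom.comp_assoc, map_mul]
  rfl

lemma vt_TT {e : S.R →+* ℂ} {x : X → ℂ}
    (he : ∀ a, e (algebraMap (MvPolynomial X ℂ) S.R a) = MvPolynomial.eval x a) (A : MT n)
    (j : ℕ) (ε : S.Γ → S.Γ) (p : S.Γ → Ix n → Fin (k + 1)) :
    vt (TT S N k j ε p) x A =
      ∑ h, e (S.σ h S.θ) ^ j * ∏ g, evR (pl S e (h * ε g)) A (mono S N k (p g)) := by
  have h1 : vt (TT S N k j ε p) x A = evR e A (MvPolynomial.map (algebraMap (MvPolynomial X ℂ) S.R) (TT S N k j ε p)) := by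
    unfold evR vt
    rw [MvPolynomial.coe_eval₂Hom, MvPolynomial.eval₂_map]
    congr 1
    exact RingHom.ext fun a => (he a).symm
  rw [h1, TT_spec]
  unfold trc
  rw [map_sum]
  refine Finset.sum_congr rfl fun h _ => ?_
  rw [evR_map, map_mul, map_pow]
  congr 1
  · congr 1
    exact MvPolynomial.eval₂Hom_C _ _ _
  · unfold pr
    rw [map_prod]
    refine Finset.prod_congr rfl fun g _ => ?_
    rw [evR_map, pl_pl]

open Classical in
/-- the systems attached to a set `Z` of automorphisms -/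
noncomputable def Bs (ξ : Fin k → ℂ) (Z : Finset S.Γ) (ρ : (S.Γ → S.Γ) × Fin (Fintype.card S.Γ))
    (p : S.Γ → (Ix n → Fin (k + 1)) × Fin k) : MvPolynomial (Ix n ⊕ X) ℂ :=
  if ∀ g, g⁻¹ * ρ.1 g ∈ Z then
    (∏ g, ξ (p g).2) • (MvPolynomial.sumAlgEquiv ℂ (Ix n) X).symm (TT S N k ρ.2 ρ.1 fun g => (p g).1) else 0

lemma Bs_pos (ξ : Fin k → ℂ) (Z : Finset S.Γ) (ρ : (S.Γ → S.Γ) × Fin (Fintype.card S.Γ)) (hρ : ∀ g, g⁻¹ * ρ.1 g ∈ Z)
    (p : S.Γ → (Ix n → Fin (k + 1)) × Fin k) : Bs S N k ξ Z ρ p =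
      (∏ g, ξ (p g).2) • (MvPolynomial.sumAlgEquiv ℂ (Ix n) X).symm (TT S N k ρ.2 ρ.1 fun g => (p g).1) := by
  unfold Bs
  rw [if_pos hρ]

lemma Bs_neg (ξ : Fin k → ℂ) (Z : Finset S.Γ) (ρ : (S.Γ → S.Γ) × Fin (Fintype.card S.Γ))
    (hρ : ¬ ∀ g, g⁻¹ * ρ.1 g ∈ Z) (p : S.Γ → (Ix n → Fin (k + 1)) × Fin k) : Bs S N k ξ Z ρ p = 0 := by
  unfold Bs
  rw [if_neg hρ]

/-- the degrees are bounded -/
lemma Bs_deg : ∃ δ : ℕ, ∀ (ξ : Fin k → ℂ) (Z : Finset S.Γ) (ρ : (S.Γ → S.Γ) × Fin (Fintype.card S.Γ))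
    (p : S.Γ → (Ix n → Fin (k + 1)) × Fin k) (y : Ix n ⊕ X), (Bs S N k ξ Z ρ p).degreeOf y ≤ δ := by
  classical
  obtain ⟨δ, hδ⟩ : ∃ δ : ℕ, ∀ q : ((S.Γ → S.Γ) × Fin (Fintype.card S.Γ)) ×
      (S.Γ → (Ix n → Fin (k + 1)) × Fin k) × (Ix n ⊕ X),
      ((MvPolynomial.sumAlgEquiv ℂ (Ix n) X).symm (TT S N k q.1.2 q.1.1 fun g => (q.2.1 g).1)).degreeOf q.2.2 ≤ δ :=
    ⟨Finset.univ.sup _, fun b => Finset.le_sup (f := fun q : ((S.Γ → S.Γ) × Fin (Fintype.card S.Γ)) ×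
      (S.Γ → (Ix n → Fin (k + 1)) × Fin k) × (Ix n ⊕ X) =>
      ((MvPolynomial.sumAlgEquiv ℂ (Ix n) X).symm (TT S N k q.1.2 q.1.1 fun g => (q.2.1 g).1)).degreeOf q.2.2)
        (Finset.mem_univ b)⟩
  refine ⟨δ, fun ξ Z ρ p y => ?_⟩
  by_cases hρ : ∀ g, g⁻¹ * ρ.1 g ∈ Z
  · rw [Bs_pos S N k ξ Z ρ hρ, MvPolynomial.smul_eq_C_mul]
    exact (MvPolynomial.degreeOf_C_mul_le _ _ _).trans (hδ (ρ, p, y))
  · rw [Bs_neg S N k ξ Z ρ hρ, MvPolynomial.degreeOf_zero]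
    exact Nat.zero_le _

/-- the value of the system -/
noncomputable def SV {K : Type} [Field K] (io : K →+* ℂ) (ξ : Fin k → ℂ) (c : (Ix n → Fin (k + 1)) × Fin k → K)
    (x : X → ℂ) (A : MT n) (ρ : (S.Γ → S.Γ) × Fin (Fintype.card S.Γ)) : ℂ :=
  ∑ p : S.Γ → (Ix n → Fin (k + 1)) × Fin k, io (∏ g, c (p g)) *
    ((∏ g, ξ (p g).2) * vt (TT S N k ρ.2 ρ.1 fun g => (p g).1) x A)

lemma SV_eq {K : Type} [Field K] (io : K →+* ℂ) (ξ : Fin k → ℂ) {F : MvPolynomial (Ix n) ℂ}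
    (hdeg : ∀ y, F.degreeOf y ≤ k) (c : (Ix n → Fin (k + 1)) × Fin k → K)
    (hc : ∀ e, F.coeff (Finsupp.equivFunOnFinite.symm fun y => (e y : ℕ)) = ∑ i, ξ i * io (c (e, i)))
    {e : S.R →+* ℂ} {x : X → ℂ} (he : ∀ a, e (algebraMap (MvPolynomial X ℂ) S.R a) = MvPolynomial.eval x a)
    (hq : MvPolynomial.eval x (S.d₀ * N) ≠ 0) (A : MT n) (ρ : (S.Γ → S.Γ) × Fin (Fintype.card S.Γ)) :
    SV S N k io ξ c x A ρ = ∑ h, e (S.σ h S.θ) ^ (ρ.2 : ℕ) *
      ∏ g, (MvPolynomial.eval x (S.d₀ * N) ^ (k * Fintype.card (Ix n)) *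
        pe F (((MvPolynomial.eval x (S.d₀ * N))⁻¹ • bm S (pl S e (h * ρ.1 g))) * A)) := by
  classical
  have h1 : ∀ h : S.Γ, ∏ g, (MvPolynomial.eval x (S.d₀ * N) ^ (k * Fintype.card (Ix n)) *
        pe F (((MvPolynomial.eval x (S.d₀ * N))⁻¹ • bm S (pl S e (h * ρ.1 g))) * A)) =
      ∑ p : S.Γ → (Ix n → Fin (k + 1)) × Fin k,
        ∏ g, (io (c (p g)) * ξ (p g).2 * evR (pl S e (h * ρ.1 g)) A (mono S N k (p g).1)) := by
    intro h
    have h2 : ∏ g, (MvPolynomial.eval x (S.d₀ * N) ^ (k * Fintype.card (Ix n)) *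
        pe F (((MvPolynomial.eval x (S.d₀ * N))⁻¹ • bm S (pl S e (h * ρ.1 g))) * A)) =
        ∏ g, ∑ l, io (c l) * ξ l.2 * evR (pl S e (h * ρ.1 g)) A (mono S N k l.1) :=
      Finset.prod_congr rfl fun g _ => (sum_q S N k io ξ hdeg c hc _ A hq (pl_alg S he _ _)).symm
    rw [h2, Finset.prod_univ_sum, Fintype.piFinset_univ]
  simp only [h1]
  unfold SV
  simp only [Finset.mul_sum]
  rw [Finset.sum_comm]
  refine Finset.sum_congr rfl fun p _ => ?_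
  rw [vt_TT S N k he, Finset.mul_sum, Finset.mul_sum]
  refine Finset.sum_congr rfl fun h _ => ?_
  rw [Finset.prod_mul_distrib, Finset.prod_mul_distrib, map_prod]
  ring

end sys

end Pool.Agent.E8helper42.GF
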